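import Pool.Agent.H419R2.A1
import Pool.Agent.H419R2.D1

/-! Quadratic orders with even trace: integrality, principal ideals. -/

namespace Run7.h626.RQ

open QuadraticAlgebra Module H419R2

variable {K : Type*} [Field K] [NumberField K]

theorem not_sq_four {E D : ℤ} (hE : Squarefree E) (h1 : 1 < E) (hD : D = 4 * E) :
    ¬ ∃ q : ℚ, q ^ 2 = D := by
  rintro ⟨q, hq⟩
  refine not_sq_of_squarefree hE h1 ⟨q / 2, ?_⟩
  rw [div_pow, hq, hD]
  push_cast
  ring

theorem integral_coords_even {m E D : ℤ} (hm : m % 2 = 0) (hE4 : E % 4 = 2 ∨ E % 4 = 3)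
    (hDE : D = 4 * E) (hsf : Squarefree E) (hE1 : 1 < E) (hK : finrank ℚ K = 2) {x : K}
    (hx : x ^ 2 = (D : K)) {y : K} (hy : IsIntegral ℤ y) :
    ∃ u w : ℤ, y = (u : K) + (w : K) * (((m : K) + x) / 2) := by
  have hx0 : (x / 2) ^ 2 = (E : K) := by
    rw [div_pow, hx, hDE]
    push_cast
    ring
  obtain ⟨n, hn⟩ : ∃ n, m = 2 * n := ⟨m / 2, by omega⟩
  have hns := not_sq_of_squarefree hsf hE1
  obtain ⟨p, q, rfl⟩ := exists_coords hns hK hx0 y
  by_cases hq : q = 0
  · subst hq
    simp only [Rat.cast_zero, zero_mul, add_zero] at hy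
    have hp : IsIntegral ℤ p := by
      have : IsIntegral ℤ (algebraMap ℚ K p) := by simpa using hy
      exact (isIntegral_algebraMap_iff (algebraMap ℚ K).injective).mp this
    obtain ⟨n, hn⟩ := IsIntegrallyClosed.isIntegral_iff.mp hp
    have hn' : (n : ℚ) = p := by simpa using hn
    refine ⟨n, 0, ?_⟩
    rw [← hn']
    push_cast
    ring
  · obtain ⟨⟨a, ha⟩, ⟨b, hb⟩⟩ := two_int_of_integral hns hx0 hq hy
    have h4 : (E : ℚ) * (2 * q) ^ 2 = ((a ^ 2 - 4 * b : ℤ) : ℚ) := by
      push_cast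
      rw [ha, hb]; ring
    obtain ⟨c, hc⟩ := int_of_squarefree_mul_sq hsf h4
    have h5 : E * c ^ 2 = a ^ 2 - 4 * b := by
      rw [← hc] at h4
      exact_mod_cast h4
    have hpar : (∃ a', a = 2 * a') ∧ ∃ c', c = 2 * c' := by
      have h7 : (a ^ 2 - E * c ^ 2) % 4 = 0 := by rw [h5]; ring_nf; omega
      obtain ⟨e, he⟩ : ∃ e, E = 4 * e + 2 ∨ E = 4 * e + 3 := ⟨E / 4, by omega⟩
      rcases Int.emod_two_eq_zero_or_one a with h | h <;>
      rcases Int.emod_two_eq_zero_or_one c with h' | h'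
      · exact ⟨⟨a / 2, by omega⟩, ⟨c / 2, by omega⟩⟩
      · exfalso
        obtain ⟨a', rfl⟩ : ∃ a', a = 2 * a' := ⟨a / 2, by omega⟩
        obtain ⟨c', rfl⟩ : ∃ c', c = 2 * c' + 1 := ⟨c / 2, by omega⟩
        rcases he with rfl | rfl <;> ring_nf at h7 <;> omega
      · exfalso
        obtain ⟨a', rfl⟩ : ∃ a', a = 2 * a' + 1 := ⟨a / 2, by omega⟩
        obtain ⟨c', rfl⟩ : ∃ c', c = 2 * c' := ⟨c / 2, by omega⟩
        rcases he with rfl | rfl <;> ring_nf at h7 <;> omega
      · exfalso
        obtain ⟨a', rfl⟩ : ∃ a', a = 2 * a' + 1 := ⟨a / 2, by omega⟩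
        obtain ⟨c', rfl⟩ : ∃ c', c = 2 * c' + 1 := ⟨c / 2, by omega⟩
        rcases he with rfl | rfl <;> ring_nf at h7 <;> omega
    obtain ⟨⟨a', ha'⟩, ⟨c', hc'⟩⟩ := hpar
    refine ⟨a' - c' * n, c', ?_⟩
    have hp : p = (a' : ℚ) := by
      have : (2 : ℚ) * p = 2 * a' := by rw [← ha, ha']; push_cast; ring
      linarith
    have hq' : q = (c' : ℚ) := by
      have : (2 : ℚ) * q = 2 * c' := by rw [← hc, hc']; push_cast; ring
      linarith
    rw [hp, hq', hn]
    push_cast
    ring

theorem pid_of_int {m R D : ℤ} (hDm : D = m ^ 2 + 4 * R) (hns : ¬ ∃ q : ℚ, q ^ 2 = D)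
    {x : K} (hx : x ^ 2 = (D : K))
    (hint : ∀ y : K, IsIntegral ℤ y → ∃ u w : ℤ, y = (u : K) + (w : K) * (((m : K) + x) / 2))
    (hcl : NumberField.classNumber K = 1) :
    IsPrincipalIdealRing (QA R m) := by
  have hxr : ∀ p q : ℤ, (p : K) + (q : K) * (((m : K) + x) / 2) = 0 → p = 0 ∧ q = 0 := by
    intro p q h
    have h2 : (2 : K) ≠ 0 := by norm_num
    by_cases hq : q = 0
    · subst hq
      simp at h
      exact ⟨h, rfl⟩
    · exfalso
      apply hns
      refine ⟨-(2 * p + q * m) / q, ?_⟩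
      have hq' : (q : K) ≠ 0 := by exact_mod_cast hq
      have hxe : x = ((-(2 * p + q * m) / q : ℚ) : K) := by
        push_cast
        rw [eq_div_iff hq']
        field_simp at h
        linear_combination h
      have h3 : (((-(2 * p + q * m) / q) ^ 2 : ℚ) : K) = ((D : ℚ) : K) := by
        push_cast
        rw [hxe] at hx
        push_cast at hx
        exact hx
      exact_mod_cast h3
  letI : Algebra (QA R m) K := (emb hDm hx).toRingHom.toAlgebra
  have hmap : ∀ z : QA R m, algebraMap (QA R m) K z =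
      (z.re : K) + (z.im : K) * (((m : K) + x) / 2) := fun z => emb_apply hDm hx z
  haveI : IsIntegralClosure (QA R m) ℤ K := by
    refine ⟨?_, ?_⟩
    · intro z w hzw
      rw [hmap, hmap] at hzw
      have := hxr (z.re - w.re) (z.im - w.im) (by push_cast; linear_combination hzw)
      ext
      · linarith [this.1]
      · linarith [this.2]
    · intro y
      constructor
      · intro hy
        obtain ⟨u, w, h⟩ := hint y hy
        exact ⟨⟨u, w⟩, by rw [hmap, h]⟩
      · rintro ⟨z, rfl⟩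
        have : IsIntegral ℤ z := by
          refine ⟨Polynomial.X ^ 2 - Polynomial.C (QuadraticAlgebra.trace z) * Polynomial.X
            + Polynomial.C (QuadraticAlgebra.norm z), ?_, ?_⟩
          · monicity!
          · rw [← Polynomial.aeval_def]
            simp only [map_add, map_sub, map_pow, map_mul, Polynomial.aeval_X, Polynomial.aeval_C]
            have := QuadraticAlgebra.sq_sub_trace_smul_add_norm_eq_zero z
            simpa [Algebra.smul_def] using this
        exact this.map (emb hDm hx)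
  haveI : IsScalarTower ℤ (QA R m) K := IsScalarTower.of_algebraMap_eq (fun n => by simp)
  have e : NumberField.RingOfIntegers K ≃ₐ[ℤ] QA R m :=
    IsIntegralClosure.equiv ℤ (NumberField.RingOfIntegers K) K (QA R m)
  rw [NumberField.classNumber_eq_one_iff] at hcl
  exact IsPrincipalIdealRing.of_surjective e.toRingEquiv e.surjective

theorem pid_even {m R E D : ℤ} (hm : m % 2 = 0) (hDm : D = m ^ 2 + 4 * R) (hDE : D = 4 * E)
    (hE4 : E % 4 = 2 ∨ E % 4 = 3) (hsf : Squarefree E) (hE1 : 1 < E)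
    (hK : finrank ℚ K = 2) {x : K} (hx : x ^ 2 = (D : K))
    (hcl : NumberField.classNumber K = 1) : IsPrincipalIdealRing (QA R m) :=
  pid_of_int hDm (not_sq_four hsf hE1 hDE) hx
    (fun _ hy => integral_coords_even hm hE4 hDE hsf hE1 hK hx hy) hcl

theorem isDomain_of_ns {m R D : ℤ} (hDm : D = m ^ 2 + 4 * R) (hns : ¬ ∃ q : ℚ, q ^ 2 = D) :
    IsDomain (QA R m) := by
  have hn : ∀ z : QA R m, QuadraticAlgebra.norm z = 0 → z = 0 := by
    intro z hz
    rw [norm_eq] at hz
    have h1 : (2 * z.re + m * z.im) ^ 2 = D * z.im ^ 2 := by rw [hDm]; linear_combination 4 * hz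
    have him : z.im = 0 := by
      by_contra h
      apply hns
      refine ⟨(2 * z.re + m * z.im) / z.im, ?_⟩
      have h' : (z.im : ℚ) ≠ 0 := by exact_mod_cast h
      have h2 : (2 * (z.re : ℚ) + m * z.im) ^ 2 = D * (z.im : ℚ) ^ 2 := by exact_mod_cast h1
      field_simp
      linear_combination h2
    have hre : z.re = 0 := by
      rw [him] at h1
      have : (2 * z.re) ^ 2 = 0 := by linear_combination h1
      have := pow_eq_zero_iff (two_ne_zero) |>.mp this
      omega
    ext
    · simpa using hre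
    · simpa using him
  have : NoZeroDivisors (QA R m) := by
    refine ⟨?_⟩
    intro a b hab
    have : QuadraticAlgebra.norm a * QuadraticAlgebra.norm b = 0 := by
      rw [← map_mul, hab]; simp
    rcases mul_eq_zero.mp this with h | h
    · left; exact hn a h
    · right; exact hn b h
  exact NoZeroDivisors.to_isDomain _

end Run7.h626.RQ
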