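import Pool.Agent.Run7.h626.RQ.A1

/-! Periodic multiplicative functions and the ideal counting identity. -/

namespace Run7.h626.RQ

open QuadraticAlgebra Module H419R2

/-- real characters -/
structure Chr (D : ℕ) (X : ℕ → ℤ) : Prop where
  one : X 1 = 1
  mul : ∀ a b, X (a * b) = X a * X b
  per : ∀ b, X (b + D) = X b
  zero : X 0 = 0
  abs : ∀ b, |X b| ≤ 1
  neg : ∃ c, c.Coprime D ∧ X c = -1

/-- `∑_{b ∣ n} X b` -/
def rx (X : ℕ → ℤ) (n : ℕ) : ℤ := ∑ b ∈ n.divisors, X b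

theorem rx_one {X : ℕ → ℤ} (h : X 1 = 1) : rx X 1 = 1 := by
  simp [rx, h]

theorem rx_rec {X : ℕ → ℤ} (hX : ∀ a b, X (a * b) = X a * X b) {l n : ℕ} (hl : l.Prime)
    (hn : n ≠ 0) :
    rx X (l * n) = (1 + X l) * rx X n
      - X l * (if l ∣ n then rx X (n / l) else 0) := by
  unfold rx
  rw [divisors_prime_mul hl hn]
  have h1 := Finset.sum_union_inter (s₁ := n.divisors)
    (s₂ := n.divisors.image (fun b => l * b)) (f := fun b : ℕ => X b)
  have himg : ∀ s : Finset ℕ, ∑ b ∈ s.image (fun b => l * b), X b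
      = X l * ∑ b ∈ s, X b := by
    intro s
    rw [Finset.sum_image (by
      intro a _ b _ h
      exact Nat.eq_of_mul_eq_mul_left hl.pos h), Finset.mul_sum]
    apply Finset.sum_congr rfl
    intro b _
    rw [hX]
  have hinter : ∑ b ∈ n.divisors ∩ n.divisors.image (fun b => l * b), X b
      = X l * (if l ∣ n then ∑ b ∈ (n / l).divisors, X b else 0) := by
    split_ifs with h
    · obtain ⟨k, rfl⟩ := h
      rw [Nat.mul_div_cancel_left _ hl.pos, ← himg]
      apply Finset.sum_congr _ (fun _ _ => rfl)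
      have hk : k ≠ 0 := by rintro rfl; simp at hn
      ext b
      simp only [Nat.mem_divisors, Finset.mem_inter, Finset.mem_image]
      constructor
      · rintro ⟨⟨h1, _⟩, ⟨c, ⟨h2, _⟩, rfl⟩⟩
        exact ⟨c, ⟨Nat.dvd_of_mul_dvd_mul_left hl.pos h1, hk⟩, rfl⟩
      · rintro ⟨c, ⟨h2, _⟩, rfl⟩
        exact ⟨⟨Nat.mul_dvd_mul_left l h2, hn⟩, ⟨c, ⟨h2.mul_left l, hn⟩, rfl⟩⟩
    · rw [mul_zero]
      apply Finset.sum_eq_zero
      intro b hb
      exfalso
      simp only [Nat.mem_divisors, Finset.mem_inter, Finset.mem_image] at hb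
      obtain ⟨⟨h1, _⟩, ⟨c, _, rfl⟩⟩ := hb
      exact h ((Dvd.intro _ rfl).trans h1)
  rw [himg, hinter] at h1
  linarith

section

variable {R m : ℤ} [IsDomain (QA R m)] [IsPrincipalIdealRing (QA R m)]

theorem cnt_eq_rx {X : ℕ → ℤ} (h1X : X 1 = 1) (hX : ∀ a b, X (a * b) = X a * X b)
    (hrec : ∀ l : ℕ, l.Prime → ∀ n, (cnt R m (l * n) : ℤ) = (1 + X l) * cnt R m n
      - X l * (if l ∣ n then (cnt R m (n / l) : ℤ) else 0))
    (n : ℕ) (hn : n ≠ 0) : (cnt R m n : ℤ) = rx X n := by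
  induction n using Nat.strong_induction_on with
  | _ n ih =>
    by_cases h1 : n = 1
    · subst h1
      rw [cnt_one, rx_one h1X]; simp
    · obtain ⟨l, hl, k, hk⟩ := Nat.exists_prime_and_dvd h1
      have hk0 : k ≠ 0 := by rintro rfl; simp at hk; exact hn hk
      have hkn : k < n := by
        rw [hk]
        have := hl.two_le
        have : 0 < k := Nat.pos_of_ne_zero hk0
        nlinarith
      rw [hk, hrec l hl, rx_rec hX hl hk0, ih k hkn hk0]
      congr 2
      split_ifs with h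
      · obtain ⟨j, hj⟩ := h
        have hj0 : j ≠ 0 := by rintro rfl; simp at hj; exact hk0 hj
        have : k / l = j := by rw [hj]; exact Nat.mul_div_cancel_left _ hl.pos
        rw [this]
        apply ih j _ hj0
        have : j ≤ k := by rw [hj]; exact Nat.le_mul_of_pos_left _ hl.pos
        omega
      · rfl

end

/-! ### The quadratic character of a field with even discriminant -/

/-- the character -/
def Xc (E : ℤ) (b : ℕ) : ℤ := if b % 2 = 0 then 0 else jacobiSym E b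

theorem Xc_odd {E : ℤ} {b : ℕ} (h : b % 2 = 1) : Xc E b = jacobiSym E b := by
  unfold Xc
  rw [if_neg (by omega)]

theorem Xc_even {E : ℤ} {b : ℕ} (h : b % 2 = 0) : Xc E b = 0 := by
  unfold Xc
  rw [if_pos h]

theorem Xc_mul (E : ℤ) (a b : ℕ) : Xc E (a * b) = Xc E a * Xc E b := by
  rcases Nat.mod_two_eq_zero_or_one a with ha | ha
  · rw [Xc_even ha, zero_mul, Xc_even (by rw [Nat.mul_mod, ha]; simp)]
  rcases Nat.mod_two_eq_zero_or_one b with hb | hb
  · rw [Xc_even hb, mul_zero, Xc_even (by rw [Nat.mul_mod, hb]; simp)]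
  rw [Xc_odd ha, Xc_odd hb, Xc_odd (by rw [Nat.mul_mod, ha, hb])]
  have : NeZero a := ⟨by rintro rfl; simp at ha⟩
  have : NeZero b := ⟨by rintro rfl; simp at hb⟩
  exact jacobiSym.mul_right E a b

theorem Xc_abs (E : ℤ) (b : ℕ) : |Xc E b| ≤ 1 := by
  unfold Xc
  split_ifs
  · simp
  · rcases jacobiSym.trichotomy E b with h | h | h <;> rw [h] <;> simp

theorem Xc_one (E : ℤ) : Xc E 1 = 1 := by
  rw [Xc_odd rfl, jacobiSym.one_right]

theorem Xc_per {E : ℤ} {D : ℕ} (hD : (D : ℤ) = 4 * E) (b : ℕ) : Xc E (b + D) = Xc E b := by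
  have hE : 0 ≤ E := by omega
  have hDn : D = 4 * E.natAbs := by omega
  rcases Nat.mod_two_eq_zero_or_one b with hb | hb
  · rw [Xc_even hb, Xc_even (by omega)]
  · rw [Xc_odd hb, Xc_odd (by omega), jacobiSym.mod_right E (Nat.odd_iff.mpr hb),
      jacobiSym.mod_right E (b := b + D) (Nat.odd_iff.mpr (by omega)), ← hDn, Nat.add_mod_right]

theorem Xc_neg {E : ℕ} (hE1 : 1 < E) (hE4 : E % 4 = 2 ∨ E % 4 = 3) :
    (1 + 2 * E).Coprime (4 * E) ∧ Xc (E : ℤ) (1 + 2 * E) = -1 := by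
  have hcE : (1 + 2 * E).Coprime E := by
    rw [Nat.Coprime, Nat.gcd_comm]
    simp
  have hc2 : (1 + 2 * E).Coprime 4 := by
    have : (1 + 2 * E).Coprime 2 := by
      rw [Nat.coprime_comm, Nat.coprime_two_left]
      exact ⟨E, by ring⟩
    have h := Nat.Coprime.pow_right 2 this
    exact h
  refine ⟨Nat.Coprime.mul_right hc2 hcE, ?_⟩
  rw [Xc_odd (by omega)]
  rcases hE4 with h | h
  · obtain ⟨F, hF⟩ : ∃ F, E = 2 * F := ⟨E / 2, by omega⟩
    have hFo : F % 2 = 1 := by omega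
    have e1 : ((E : ℕ) : ℤ) = 2 * (F : ℤ) := by rw [hF]; push_cast; ring
    rw [e1, jacobiSym.mul_left]
    have h2 : jacobiSym 2 (1 + 2 * E) = -1 := by
      rw [jacobiSym.at_two (Nat.odd_iff.mpr (by omega)), ZMod.χ₈_nat_eq_if_mod_eight]
      have h8 : (1 + 2 * E) % 8 = 5 := by omega
      have h22 : (1 + 2 * E) % 2 = 1 := by omega
      simp [h8, h22]
    have h3 : jacobiSym (F : ℤ) (1 + 2 * E) = 1 := by
      rw [jacobiSym.quadratic_reciprocity_one_mod_four' (Nat.odd_iff.mpr hFo) (by omega)]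
      have : jacobiSym ((1 + 2 * E : ℕ) : ℤ) F = jacobiSym 1 F := by
        apply jacobiSym.mod_left'
        rw [hF]
        push_cast
        have : (1 : ℤ) + 2 * (2 * F) = 1 + F * 4 := by ring
        rw [this, Int.add_mul_emod_self_left]
      rw [this, jacobiSym.one_left]
    rw [h2, h3]; norm_num
  · rw [jacobiSym.quadratic_reciprocity_three_mod_four h (by omega)]
    have : jacobiSym ((1 + 2 * E : ℕ) : ℤ) E = jacobiSym 1 E := by
      apply jacobiSym.mod_left'
      push_cast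
      have : (1 : ℤ) + 2 * E = 1 + E * 2 := by ring
      rw [this, Int.add_mul_emod_self_left]
    rw [this, jacobiSym.one_left]

theorem chr_Xc {E D : ℕ} (hE1 : 1 < E) (hE4 : E % 4 = 2 ∨ E % 4 = 3) (hD : D = 4 * E) :
    Chr D (Xc E) where
  one := Xc_one _
  mul := Xc_mul _
  per := Xc_per (by rw [hD]; push_cast; ring)
  zero := Xc_even rfl
  abs := Xc_abs _
  neg := ⟨1 + 2 * E, by rw [hD]; exact (Xc_neg hE1 hE4).1, (Xc_neg hE1 hE4).2⟩

section

variable {R m : ℤ} [IsDomain (QA R m)] [IsPrincipalIdealRing (QA R m)]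

theorem cnt_rec_even {D E : ℕ} (hD : (D : ℤ) = m ^ 2 + 4 * R) (hDE : D = 4 * E) (hm : m % 2 = 0)
    {l : ℕ} (hl : l.Prime) (n : ℕ) :
    (cnt R m (l * n) : ℤ) = (1 + Xc E l) * cnt R m n
      - Xc E l * (if l ∣ n then (cnt R m (n / l) : ℤ) else 0) := by
  by_cases h2 : l = 2
  · subst h2
    rw [Xc_even rfl]
    have hw : ((2 : ℕ) : ℤ) ∣ R ^ 2 + m * R - R := by
      obtain ⟨a, ha⟩ : ∃ a, m = 2 * a := ⟨m / 2, by omega⟩
      obtain ⟨c, hc⟩ : Even (R * (R - 1)) := Int.even_mul_pred_self R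
      refine ⟨c + a * R, ?_⟩
      rw [ha]
      push_cast
      linear_combination hc
    obtain ⟨p, hp⟩ := exists_norm_prime hl hw
    rw [cnt_ramified hl hp (span_eq_of_dvd hp hD hl ⟨2 * E, by rw [hDE]; push_cast; ring⟩)]
    simp
  · have hodd : l % 2 = 1 := Nat.odd_iff.mp (hl.odd_of_ne_two h2)
    haveI := Fact.mk hl
    have hj : Xc (E : ℤ) l = legendreSym l (E : ℤ) := by
      rw [Xc_odd hodd, jacobiSym.legendreSym.to_jacobiSym]
    rw [hj]
    have h20 : (2 : ZMod l) ≠ 0 := by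
      intro h3
      have : ((2 : ℕ) : ZMod l) = 0 := by exact_mod_cast h3
      rw [ZMod.natCast_eq_zero_iff] at this
      exact h2 ((Nat.prime_dvd_prime_iff_eq hl Nat.prime_two).mp this)
    have hDc : ((D : ℤ) : ZMod l) = 2 ^ 2 * ((E : ℤ) : ZMod l) := by
      rw [hDE]; push_cast; ring
    have hsq : IsSquare ((D : ℤ) : ZMod l) ↔ IsSquare ((E : ℤ) : ZMod l) := by
      rw [hDc]
      constructor
      · rintro ⟨y, hy⟩
        refine ⟨y / 2, ?_⟩
        field_simp
        linear_combination hy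
      · rintro ⟨y, hy⟩
        exact ⟨2 * y, by rw [hy]; ring⟩
    by_cases hz : ((E : ℤ) : ZMod l) = 0
    · rw [(legendreSym.eq_zero_iff l (E : ℤ)).mpr hz]
      have hzD : ((D : ℤ) : ZMod l) = 0 := by rw [hDc, hz, mul_zero]
      obtain ⟨w0, hw0⟩ := root_of_square (R := R) (m := m) hl h2 hD (by rw [hzD]; exact ⟨0, by simp⟩)
      obtain ⟨p, hp⟩ := exists_norm_prime hl hw0
      have hlD : (l : ℤ) ∣ (D : ℤ) := (ZMod.intCast_zmod_eq_zero_iff_dvd _ l).mp hzD
      rw [cnt_ramified hl hp (span_eq_of_dvd hp hD hl hlD)]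
      simp
    · by_cases hs : IsSquare ((E : ℤ) : ZMod l)
      · rw [(legendreSym.eq_one_iff l hz).mpr hs]
        obtain ⟨w0, hw0⟩ := root_of_square (R := R) (m := m) hl h2 hD (hsq.mpr hs)
        obtain ⟨p, hp⟩ := exists_norm_prime hl hw0
        have hlD : ¬ (l : ℤ) ∣ (D : ℤ) := by
          intro h
          have h3 := (ZMod.intCast_zmod_eq_zero_iff_dvd _ l).mpr h
          rw [hDc] at h3
          rcases mul_eq_zero.mp h3 with h4 | h4
          · exact h20 (pow_eq_zero_iff (two_ne_zero) |>.mp h4)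
          · exact hz h4
        have h3 := cnt_split hl hp (span_ne_of_not_dvd hp hD hl h2 hlD) n
        split_ifs at h3 ⊢ <;> push_cast [← h3] <;> linarith
      · rw [(legendreSym.eq_neg_one_iff l).mpr hs]
        rw [cnt_inert hl (inert_of_not_square hl h2 hD (fun h => hs (hsq.mp h)))]
        split_ifs <;> simp

end

end Run7.h626.RQ
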