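import Pool.Agent.Run7.h626.RQ.B

/-! The main identities for a general real character. -/

namespace Run7.h626.RQ

open Finset Filter Topology H419R2

/-- analytic comparison -/
theorem compareX {R m : ℤ} [IsDomain (QA R m)] [IsPrincipalIdealRing (QA R m)] (Fd : FD R m)
    (hone : ∀ z : QA R m, Fd.Dom z → (QuadraticAlgebra.norm z).natAbs = 1 → z = 1)
    {P : Type*} (gen : P → QA R m) (hg : Function.Injective gen)
    (hd : ∀ z, Fd.Dom z ↔ z ∈ Set.range gen)
    {χ : ℕ → ℤ} {D q : ℕ} [NeZero q] (hX : Chr D χ) (hD1 : 1 < D)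
    (hcnt : ∀ n : ℕ, n ≠ 0 → (cnt R m n : ℤ) = rx χ n)
    (hcop : q.Coprime D) {F : ZMod q → ℝ} (hodd : ∀ x, F (-x) = -F x) {W : ℝ → ℝ} {c0 : ℝ}
    (hW : ∀ᶠ t in 𝓝[>] (0 : ℝ), HasSum (fun p => F (((QuadraticAlgebra.norm (gen p)).natAbs : ℕ)) *
      Real.exp (-(t * (QuadraticAlgebra.norm (gen p)).natAbs))) (W t))
    (hexp : HasExp W c0) :
    (∑ l ∈ range (q * D), ∑ a ∈ range q, (l : ℝ) * a * χ l * F ((a * l : ℕ)))
        / (q * (q * D)) = c0 := by
  have hlim := Lside_limitX hX hD1 hcop hodd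
  refine (hexp.congr ?_).unique hlim
  have hF0 : F 0 = 0 := by
    have := hodd 0
    rw [neg_zero] at this
    linarith
  filter_upwards [hW, self_mem_nhdsWithin] with t hWt ht
  have ht' : (0 : ℝ) < t := ht
  have h1 := tsum_param Fd hone gen hg hd (fun n : ℕ => F n * Real.exp (-(t * n)))
    (by simp [hF0]) hWt.summable
  have h2 := Lside_hasSumX (f := fun n : ℕ => F n) hX.zero hX.abs (by simp [hF0])
    (Φ := ∑ x : ZMod q, |F x|)
    (fun j => Finset.single_le_sum (f := fun x => |F x|) (fun _ _ => abs_nonneg _)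
      (Finset.mem_univ _)) ht'
  have h3 : (fun n : ℕ => F n * Real.exp (-(t * n)) * (cnt R m n : ℝ)) =
      (fun n : ℕ => F n * Real.exp (-(t * n)) * (rx χ n : ℝ)) := by
    funext n
    by_cases hn : n = 0
    · subst hn; simp [hF0]
    · have h4 := hcnt n hn
      have h5 : (cnt R m n : ℝ) = (rx χ n : ℝ) := by
        rw [← h4]; push_cast; rfl
      rw [h5]
  rw [h3] at h1
  have h6 := h1.unique h2
  rw [hWt.tsum_eq] at h6
  exact h6

theorem mainPX {r k : ℕ} (hr : 2 ≤ r) (hk : 1 ≤ k)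
    [IsDomain (QA (r : ℤ) ((r * k : ℕ) : ℤ))] [IsPrincipalIdealRing (QA (r : ℤ) ((r * k : ℕ) : ℤ))]
    {χ : ℕ → ℤ} {D q : ℕ} [NeZero q] (hX : Chr D χ) (hD1 : 1 < D)
    (hcnt : ∀ n : ℕ, n ≠ 0 → (cnt (r : ℤ) ((r * k : ℕ) : ℤ) n : ℤ) = rx χ n)
    (hcop : q.Coprime D) {F : ZMod q → ℝ} (hodd : ∀ x, F (-x) = -F x) :
    (∑ l ∈ range (q * D), ∑ a ∈ range q, (l : ℝ) * a * χ l * F ((a * l : ℕ)))
        / (q * (q * D)) = SS (fun x y => F (x ^ 2 + (r : ZMod q) * (k : ZMod q) * (x * y) -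
          (r : ZMod q) * y ^ 2) *
          (4 * (B1 x * B1 y) - k * B2 x + (r * k) * B2 y)) := by
  set V1 := wP1 r k with hV1
  set V2 := wP2 r k hr with hV2
  have hr0 : (r : ℝ) ≠ 0 := by
    have : (2 : ℝ) ≤ r := by exact_mod_cast hr
    linarith
  set Φ := ∑ x : ZMod q, |F x| with hΦdef
  have hΦ : ∀ x, |F x| ≤ Φ := fun x =>
    Finset.single_le_sum (f := fun x => |F x|) (fun _ _ => abs_nonneg _) (Finset.mem_univ x)
  have key := compareX (fdP hr hk) (honeP hr hk) (genP r k) (genP_inj hr hk) (genP_range hr hk)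
    hX hD1 hcnt hcop hodd
    (W := fun t => V1.WS (fun u w => F (((1 : ℤ) : ZMod q) * (u : ZMod q) ^ 2 +
      (((r * k : ℕ) : ℤ) : ZMod q) * u * w + ((-(r : ℤ) : ℤ) : ZMod q) * (w : ZMod q) ^ 2)) t +
      V2.WS (fun u w => F (((r : ℤ) : ZMod q) * (u : ZMod q) ^ 2 +
      (((r * k : ℕ) : ℤ) : ZMod q) * u * w + ((-1 : ℤ) : ZMod q) * (w : ZMod q) ^ 2)) t)
    ?_ (HasExp.add (V1.hasExp F _ _ _) (V2.hasExp F _ _ _))
  · rw [key]
    have e1 := V1.C0_refl (fun u w : ZMod q => F (((1 : ℤ) : ZMod q) * (u : ZMod q) ^ 2 +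
      (((r * k : ℕ) : ℤ) : ZMod q) * u * w + ((-(r : ℤ) : ℤ) : ZMod q) * (w : ZMod q) ^ 2))
      ?_ ?_ ?_ ?_
    · have e2 := V2.C0_refl (fun u w : ZMod q => F (((r : ℤ) : ZMod q) * (u : ZMod q) ^ 2 +
        (((r * k : ℕ) : ℤ) : ZMod q) * u * w + ((-1 : ℤ) : ZMod q) * (w : ZMod q) ^ 2))
        ?_ ?_ ?_ ?_
      · rw [e1, e2, cvE (fun u w => F (((r : ℤ) : ZMod q) * (u : ZMod q) ^ 2 +
          (((r * k : ℕ) : ℤ) : ZMod q) * u * w + ((-1 : ℤ) : ZMod q) * (w : ZMod q) ^ 2) * _),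
          ← SS_add]
        apply SS_congr
        intro x y
        have g1 : V1.gs 0 = 1 := by simp [Wedge.gs, hV1, wP1]
        have g2 : V2.gs 0 = r := by simp [Wedge.gs, hV2, wP2]
        have b1 : V1.b = r * k := by simp [hV1, wP1]
        have b2 : V2.b = r * k := by simp [hV2, wP2]
        have k1 : (V1.κ : ℝ) = k := by simp [hV1, wP1]
        have k2 : (V2.κ : ℝ) = r * k := by simp [hV2, wP2]
        rw [g1, g2, b1, b2, k1, k2, B1_neg, B2_neg]
        have f1 : F (((1 : ℤ) : ZMod q) * x ^ 2 + (((r * k : ℕ) : ℤ) : ZMod q) * x * y +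
            ((-(r : ℤ) : ℤ) : ZMod q) * y ^ 2) = F (x ^ 2 + (r : ZMod q) * (k : ZMod q) * (x * y) -
            (r : ZMod q) * y ^ 2) := by
          congr 1; push_cast; ring
        have f2 : F (((r : ℤ) : ZMod q) * y ^ 2 + (((r * k : ℕ) : ℤ) : ZMod q) * y * -x +
            ((-1 : ℤ) : ZMod q) * (-x) ^ 2) = - F (x ^ 2 + (r : ZMod q) * (k : ZMod q) * (x * y) -
            (r : ZMod q) * y ^ 2) := by
          rw [← hodd]; congr 1; push_cast; ring
        rw [f1, f2]
        field_simp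
        ring
      · intro u w
        congr 1
        simp only [hV2, wP2]
        push_cast; ring
      · intro u w
        congr 1
        push_cast; ring
      · simp only [hV2, wP2]
        push_cast; ring
      · simp only [Wedge.gs, hV2, wP2]
        push_cast; ring
    · intro u w
      congr 1
      simp only [hV1, wP1]
      push_cast; ring
    · intro u w
      congr 1
      push_cast; ring
    · simp only [hV1, wP1]
      push_cast; ring
    · simp only [Wedge.gs, hV1, wP1]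
      push_cast; ring
  · filter_upwards [V1.small, V2.small] with t h1 h2
    apply HasSum.sum
    · have := V1.hasSum_int hΦ (a := 1) (b := ((r * k : ℕ) : ℤ)) (d := -(r : ℤ)) rfl rfl rfl h1.1 h1.2
      refine (congrArg (fun g : Idx k → ℝ => HasSum g _) (funext fun p => ?_)).mpr this
      have e : (QuadraticAlgebra.norm (genP r k (Sum.inl p))).natAbs =
        (1 * (p.1 : ℤ) ^ 2 + ((r * k : ℕ) : ℤ) * p.1 * ((p.2 : ℕ) : ℤ) +
          -(r : ℤ) * ((p.2 : ℕ) : ℤ) ^ 2).natAbs := by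
        rw [norm_eq]
        simp only [genP]
        congr 1
        ring
      simp only [Function.comp]
      rw [e]
    · have := V2.hasSum_int hΦ (a := (r : ℤ)) (b := ((r * k : ℕ) : ℤ)) (d := -1) rfl rfl rfl h2.1 h2.2
      refine (congrArg (fun g : Idx (r * k) → ℝ => HasSum g _) (funext fun p => ?_)).mpr this
      have e : (QuadraticAlgebra.norm (genP r k (Sum.inr p))).natAbs =
        ((r : ℤ) * (p.1 : ℤ) ^ 2 + ((r * k : ℕ) : ℤ) * p.1 * ((p.2 : ℕ) : ℤ) +
          -1 * ((p.2 : ℕ) : ℤ) ^ 2).natAbs := by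
        rw [norm_eq, ← Int.natAbs_neg]
        simp only [genP]
        congr 1
        ring
      simp only [Function.comp]
      rw [e]

theorem mainMX {r k : ℕ} (hr : 2 ≤ r) (hk : 3 ≤ k)
    [IsDomain (QA (-(r : ℤ)) ((r * k : ℕ) : ℤ))]
    [IsPrincipalIdealRing (QA (-(r : ℤ)) ((r * k : ℕ) : ℤ))]
    {χ : ℕ → ℤ} {D q : ℕ} [NeZero q] (hX : Chr D χ) (hD1 : 1 < D)
    (hcnt : ∀ n : ℕ, n ≠ 0 → (cnt (-(r : ℤ)) ((r * k : ℕ) : ℤ) n : ℤ) = rx χ n)
    (hcop : q.Coprime D) {F : ZMod q → ℝ} (hodd : ∀ x, F (-x) = -F x) :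
    (∑ l ∈ range (q * D), ∑ a ∈ range q, (l : ℝ) * a * χ l * F ((a * l : ℕ)))
        / (q * (q * D)) = SS (fun x y => F (x ^ 2 + (r : ZMod q) * (k : ZMod q) * (x * y) +
          (r : ZMod q) * y ^ 2) *
          (4 * (B1 x * B1 y) + k * B2 x + (r * k) * B2 y)) := by
  set VA := wMA r k hr hk with hVA
  set VB := wMB r k hr hk with hVB
  set VC := wMC r k hr hk with hVC
  set VD := wMD r k hr hk with hVD
  have hr' : (2 : ℝ) ≤ r := by exact_mod_cast hr
  have hk' : (3 : ℝ) ≤ k := by exact_mod_cast hk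
  have hrk : 6 ≤ r * k := by nlinarith
  have hF0 : F 0 = 0 := by
    have := hodd 0
    rw [neg_zero] at this
    linarith
  set Φ := ∑ x : ZMod q, |F x| with hΦdef
  have hΦ : ∀ x, |F x| ≤ Φ := fun x =>
    Finset.single_le_sum (f := fun x => |F x|) (fun _ _ => abs_nonneg _) (Finset.mem_univ x)
  have key := compareX (fdM hr hk) (honeM hr hk) (genM r k) (genM_inj hr hk) (genM_range hr hk)
    hX hD1 hcnt hcop hodd
    (W := fun t => (VA.WS (fun u w => F (((((r : ℤ) * k - 1 - r : ℤ)) : ZMod q) * (u : ZMod q) ^ 2 +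
      (((r : ℤ) * k - 2 : ℤ) : ZMod q) * u * w + ((-1 : ℤ) : ZMod q) * (w : ZMod q) ^ 2)) t +
      VB.WS (fun u w => F (((((r : ℤ) * k - 1 - r : ℤ)) : ZMod q) * (u : ZMod q) ^ 2 +
      (((r : ℤ) * (k - 2) : ℤ) : ZMod q) * u * w +
        ((-(r : ℤ) : ℤ) : ZMod q) * (w : ZMod q) ^ 2)) t) +
      (VC.WS (fun u w => F (((1 : ℤ) : ZMod q) * (u : ZMod q) ^ 2 +
      (((r : ℤ) * k - 2 : ℤ) : ZMod q) * u * w +
        ((1 - (r : ℤ) * k + r : ℤ) : ZMod q) * (w : ZMod q) ^ 2)) t +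
      VD.WS (fun u w => F (((r : ℤ) : ZMod q) * (u : ZMod q) ^ 2 +
      (((r : ℤ) * k - 2 * r : ℤ) : ZMod q) * u * w +
        ((1 - (r : ℤ) * k + r : ℤ) : ZMod q) * (w : ZMod q) ^ 2)) t))
    ?_ (HasExp.add (HasExp.add (VA.hasExp F _ _ _) (VB.hasExp F _ _ _))
      (HasExp.add (VC.hasExp F _ _ _) (VD.hasExp F _ _ _)))
  · rw [key]
    have kA : ((VA.κ : ℕ) : ℝ) = r * k - 2 := by
      simp only [hVA, wMA]
      rw [Nat.cast_sub (by omega)]
      push_cast; ring
    have kB : ((VB.κ : ℕ) : ℝ) = k - 2 := by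
      simp only [hVB, wMB]
      rw [Nat.cast_sub (by omega)]
      push_cast; ring
    have kA' : ((VA.κ : ℕ) : ZMod q) = r * k - 2 := by
      simp only [hVA, wMA]
      rw [Nat.cast_sub (by omega)]
      push_cast; ring
    have kB' : ((VB.κ : ℕ) : ZMod q) = k - 2 := by
      simp only [hVB, wMB]
      rw [Nat.cast_sub (by omega)]
      push_cast; ring
    have eA := VA.C0_refl (fun u w : ZMod q => F (((((r : ℤ) * k - 1 - r : ℤ)) : ZMod q) *
      (u : ZMod q) ^ 2 +
      (((r : ℤ) * k - 2 : ℤ) : ZMod q) * u * w + ((-1 : ℤ) : ZMod q) * (w : ZMod q) ^ 2))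
      (by
        intro u w
        congr 1
        rw [kA']
        push_cast; ring)
      (by
        intro u w
        congr 1
        push_cast; ring)
      (by
        rw [kA]
        simp only [hVA, wMA]
        push_cast; ring)
      (by
        unfold Wedge.gs
        rw [kA]
        simp only [hVA, wMA]
        push_cast; ring)
    have eB := VB.C0_refl (fun u w : ZMod q => F (((((r : ℤ) * k - 1 - r : ℤ)) : ZMod q) *
      (u : ZMod q) ^ 2 +
      (((r : ℤ) * (k - 2) : ℤ) : ZMod q) * u * w +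
        ((-(r : ℤ) : ℤ) : ZMod q) * (w : ZMod q) ^ 2))
      (by
        intro u w
        congr 1
        rw [kB']
        push_cast; ring)
      (by
        intro u w
        congr 1
        push_cast; ring)
      (by
        rw [kB]
        simp only [hVB, wMB]
        push_cast; ring)
      (by
        unfold Wedge.gs
        rw [kB]
        simp only [hVB, wMB]
        push_cast; ring)
    have eC := C0_C VC rfl (fun u w : ZMod q => F (((1 : ℤ) : ZMod q) * (u : ZMod q) ^ 2 +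
      (((r : ℤ) * k - 2 : ℤ) : ZMod q) * u * w +
        ((1 - (r : ℤ) * k + r : ℤ) : ZMod q) * (w : ZMod q) ^ 2))
      (fun x y => F (x ^ 2 + (r : ZMod q) * (k : ZMod q) * (x * y) + (r : ZMod q) * y ^ 2))
      (by
        intro x y
        congr 1
        push_cast; ring)
    have eD := C0_D VD rfl (fun u w : ZMod q => F (((r : ℤ) : ZMod q) * (u : ZMod q) ^ 2 +
      (((r : ℤ) * k - 2 * r : ℤ) : ZMod q) * u * w +
        ((1 - (r : ℤ) * k + r : ℤ) : ZMod q) * (w : ZMod q) ^ 2))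
      (fun x y => F (x ^ 2 + (r : ZMod q) * (k : ZMod q) * (x * y) + (r : ZMod q) * y ^ 2))
      (by
        intro x y
        congr 1
        push_cast; ring)
    rw [eA, eB, eC, eD]
    rw [cvA (fun u w : ZMod q => F (((((r : ℤ) * k - 1 - r : ℤ)) : ZMod q) *
      (u : ZMod q) ^ 2 +
      (((r : ℤ) * k - 2 : ℤ) : ZMod q) * u * w + ((-1 : ℤ) : ZMod q) * (w : ZMod q) ^ 2) * _),
      cvB (fun u w : ZMod q => F (((((r : ℤ) * k - 1 - r : ℤ)) : ZMod q) *
      (u : ZMod q) ^ 2 +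
      (((r : ℤ) * (k - 2) : ℤ) : ZMod q) * u * w +
        ((-(r : ℤ) : ℤ) : ZMod q) * (w : ZMod q) ^ 2) * _)]
    rw [← SS_add, ← SS_add, ← SS_add]
    apply SS_congr
    intro x y
    have gA : VA.gs 0 = r * k - 1 - r := by simp [Wedge.gs, hVA, wMA]
    have gB : VB.gs 0 = r * k - 1 - r := by simp [Wedge.gs, hVB, wMB]
    have gC0 : VC.gs 0 = 1 := by simp [Wedge.gs, hVC, wMC]
    have gC1 : VC.gs 1 = r := by simp [Wedge.gs, hVC, wMC]; ring
    have gD0 : VD.gs 0 = r := by simp [Wedge.gs, hVD, wMD]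
    have gD1 : VD.gs 1 = 1 := by simp [Wedge.gs, hVD, wMD]; ring
    have bA : VA.b = r * k - 2 := by simp [hVA, wMA]
    have bB : VB.b = r * (k - 2) := by simp [hVB, wMB]
    have bC : VC.b = r * k - 2 := by simp [hVC, wMC]
    have bD : VD.b = r * k - 2 * r := by simp [hVD, wMD]
    have dC : VC.b + 2 * VC.d = 2 * r - r * k := by simp [hVC, wMC]; ring
    have dD : VD.b + 2 * VD.d = 2 - r * k := by simp [hVD, wMD]; ring
    rw [gA, gB, gC0, gC1, gD0, gD1, bA, bB, dC, dD, bC, bD, kA, kB]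
    have fA : F (((((r : ℤ) * k - 1 - r : ℤ)) : ZMod q) * (-y) ^ 2 +
        (((r : ℤ) * k - 2 : ℤ) : ZMod q) * -y * (x + y) + ((-1 : ℤ) : ZMod q) * (x + y) ^ 2) =
        -F (x ^ 2 + (r : ZMod q) * (k : ZMod q) * (x * y) + (r : ZMod q) * y ^ 2) := by
      rw [← hodd]; congr 1; push_cast; ring
    have fB : F (((((r : ℤ) * k - 1 - r : ℤ)) : ZMod q) * x ^ 2 +
        (((r : ℤ) * (k - 2) : ℤ) : ZMod q) * x * -(x + y) +
        ((-(r : ℤ) : ℤ) : ZMod q) * (-(x + y)) ^ 2) =
        -F (x ^ 2 + (r : ZMod q) * (k : ZMod q) * (x * y) + (r : ZMod q) * y ^ 2) := by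
      rw [← hodd]; congr 1; push_cast; ring
    rw [fA, fB]
    by_cases h : x = 0 ∧ y = 0
    · obtain ⟨hx, hy⟩ := h
      have : x ^ 2 + (r : ZMod q) * (k : ZMod q) * (x * y) + (r : ZMod q) * y ^ 2 = 0 := by
        rw [hx, hy]; ring
      rw [this, hF0]
      ring
    · have hc := comb_pt x y h (r * k) k r rfl (by linarith) (by nlinarith)
      rw [← hc]
      ring
  · filter_upwards [VA.small, VB.small, VC.small, VD.small] with t hA hB hC hD'
    apply HasSum.sum
    · apply HasSum.sum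
      · have := VA.hasSum_int hΦ (a := (r : ℤ) * k - 1 - r) (b := (r : ℤ) * k - 2) (d := -1)
          rfl rfl rfl hA.1 hA.2
        refine (congrArg (fun g : Idx (r * k - 2) → ℝ => HasSum g _) (funext fun p => ?_)).mpr this
        have e : (QuadraticAlgebra.norm (genM r k (Sum.inl (Sum.inl p)))).natAbs =
          (((r : ℤ) * k - 1 - r) * (p.1 : ℤ) ^ 2 + ((r : ℤ) * k - 2) * p.1 * ((p.2 : ℕ) : ℤ) +
            -1 * ((p.2 : ℕ) : ℤ) ^ 2).natAbs := by
          rw [norm_eq, ← Int.natAbs_neg]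
          simp only [genM]
          congr 1
          push_cast
          ring
        simp only [Function.comp]
        rw [e]
      · have := VB.hasSum_int hΦ (a := (r : ℤ) * k - 1 - r) (b := (r : ℤ) * (k - 2))
          (d := -(r : ℤ)) rfl rfl rfl hB.1 hB.2
        refine (congrArg (fun g : Idx (k - 2) → ℝ => HasSum g _) (funext fun p => ?_)).mpr this
        have e : (QuadraticAlgebra.norm (genM r k (Sum.inl (Sum.inr p)))).natAbs =
          (((r : ℤ) * k - 1 - r) * (p.1 : ℤ) ^ 2 + ((r : ℤ) * (k - 2)) * p.1 * ((p.2 : ℕ) : ℤ) +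
            -(r : ℤ) * ((p.2 : ℕ) : ℤ) ^ 2).natAbs := by
          rw [norm_eq, ← Int.natAbs_neg]
          simp only [genM]
          congr 1
          push_cast
          ring
        simp only [Function.comp]
        rw [e]
    · apply HasSum.sum
      · have := VC.hasSum_int hΦ (a := 1) (b := (r : ℤ) * k - 2) (d := 1 - (r : ℤ) * k + r)
          rfl rfl rfl hC.1 hC.2
        refine (congrArg (fun g : Idx 1 → ℝ => HasSum g _) (funext fun p => ?_)).mpr this
        have e : (QuadraticAlgebra.norm (genM r k (Sum.inr (Sum.inl p)))).natAbs =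
          (1 * (p.1 : ℤ) ^ 2 + ((r : ℤ) * k - 2) * p.1 * ((p.2 : ℕ) : ℤ) +
            (1 - (r : ℤ) * k + r) * ((p.2 : ℕ) : ℤ) ^ 2).natAbs := by
          rw [norm_eq]
          simp only [genM]
          congr 1
          push_cast
          ring
        simp only [Function.comp]
        rw [e]
      · have := VD.hasSum_int hΦ (a := (r : ℤ)) (b := (r : ℤ) * k - 2 * r)
          (d := 1 - (r : ℤ) * k + r) rfl rfl rfl hD'.1 hD'.2
        refine (congrArg (fun g : Idx 1 → ℝ => HasSum g _) (funext fun p => ?_)).mpr this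
        have e : (QuadraticAlgebra.norm (genM r k (Sum.inr (Sum.inr p)))).natAbs =
          ((r : ℤ) * (p.1 : ℤ) ^ 2 + ((r : ℤ) * k - 2 * r) * p.1 * ((p.2 : ℕ) : ℤ) +
            (1 - (r : ℤ) * k + r) * ((p.2 : ℕ) : ℤ) ^ 2).natAbs := by
          rw [norm_eq]
          simp only [genM]
          congr 1
          push_cast
          ring
        simp only [Function.comp]
        rw [e]


end Run7.h626.RQ
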