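import Pool.Agent.Run7.h626.RQ.C
import Pool.Agent.H419R2.D2

/-! Class number one and the integral relations, even discriminant. -/

namespace Run7.h626.RQ

open Finset H419R2

/-- consequence of class number one -/
structure GoodX (R K : ℤ) (D : ℕ) (X : ℕ → ℤ) : Prop where
  hD : (D : ℤ) = (R * K) ^ 2 + 4 * R
  hD1 : 1 < D
  rel : ∀ (q : ℕ) [NeZero q], q.Coprime D → ∀ f : ZMod q → ℤ, (∀ x, f (-x) = -f x) →
    (D : ℤ) * ∑ x : ZMod q, ∑ y : ZMod q, f (x ^ 2 + (R : ZMod q) * (K : ZMod q) * (x * y)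
      - (R : ZMod q) * y ^ 2) * wt K (R * K) x y =
    6 * ∑ l ∈ range (q * D), ∑ a ∈ range q, (l : ℤ) * a * X l * f ((a * l : ℕ))
  inert : ∀ l : ℕ, l.Prime → l ≠ 2 → 2 * (l : ℤ) ≤ R * K → l ≠ R.natAbs →
    ¬ IsSquare (((D : ℤ)) : ZMod l)

theorem rel_ofX {X : ℕ → ℤ} {q D : ℕ} [NeZero q] (hD : 0 < D) {R K : ℤ} {f : ZMod q → ℤ}
    (h : (∑ l ∈ range (q * D), ∑ a ∈ range q, (l : ℝ) * a * X l *
      ((f ((a * l : ℕ)) : ℤ) : ℝ)) / (q * (q * D)) =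
      SS (fun x y => ((f (x ^ 2 + (R : ZMod q) * (K : ZMod q) * (x * y)
      - (R : ZMod q) * y ^ 2) : ℤ) : ℝ) *
          (4 * (B1 x * B1 y) - K * B2 x + (R * K : ℤ) * B2 y))) :
    (D : ℤ) * ∑ x : ZMod q, ∑ y : ZMod q, f (x ^ 2 + (R : ZMod q) * (K : ZMod q) * (x * y)
      - (R : ZMod q) * y ^ 2) * wt K (R * K) x y =
    6 * ∑ l ∈ range (q * D), ∑ a ∈ range q, (l : ℤ) * a * X l * f ((a * l : ℕ)) := by
  have hq := qpos (q := q)
  have hD' : (0 : ℝ) < D := by exact_mod_cast hD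
  have e1 : ((∑ x : ZMod q, ∑ y : ZMod q, f (x ^ 2 + (R : ZMod q) * (K : ZMod q) * (x * y)
      - (R : ZMod q) * y ^ 2) * wt K (R * K) x y : ℤ) : ℝ) =
      6 * q ^ 2 * SS (fun x y => ((f (x ^ 2 + (R : ZMod q) * (K : ZMod q) * (x * y)
      - (R : ZMod q) * y ^ 2) : ℤ) : ℝ) *
          (4 * (B1 x * B1 y) - K * B2 x + (R * K : ℤ) * B2 y)) := by
    rw [← SS_mul]
    unfold SS
    rw [Int.cast_sum]
    apply Finset.sum_congr rfl
    intro x _
    rw [Int.cast_sum]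
    apply Finset.sum_congr rfl
    intro y _
    rw [Int.cast_mul, wt_real]
    ring
  have e2 : ((∑ l ∈ range (q * D), ∑ a ∈ range q, (l : ℤ) * a * X l *
      f ((a * l : ℕ)) : ℤ) : ℝ) = ∑ l ∈ range (q * D), ∑ a ∈ range q, (l : ℝ) * a *
      X l * ((f ((a * l : ℕ)) : ℤ) : ℝ) := by
    push_cast
    rfl
  have e3 : (((D : ℤ) * ∑ x : ZMod q, ∑ y : ZMod q, f (x ^ 2 + (R : ZMod q) * (K : ZMod q) * (x * y)
      - (R : ZMod q) * y ^ 2) * wt K (R * K) x y : ℤ) : ℝ) =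
    ((6 * ∑ l ∈ range (q * D), ∑ a ∈ range q, (l : ℤ) * a * X l *
      f ((a * l : ℕ)) : ℤ) : ℝ) := by
    rw [Int.cast_mul, e1, Int.cast_mul 6, e2, ← h]
    push_cast
    field_simp
  exact_mod_cast e3

theorem good_PX {r k : ℕ} (hr : 2 ≤ r) (hk : 1 ≤ k) {D : ℕ}
    (hD : (D : ℤ) = ((r : ℤ) * k) ^ 2 + 4 * r) {E : ℕ} (hDE : D = 4 * E)
    (hE4 : E % 4 = 2 ∨ E % 4 = 3) (hE1 : 1 < E) (hsf : Squarefree (E : ℤ))
    (hm : ((r : ℤ) * k) % 2 = 0)
    {K : Type*} [Field K] [NumberField K] (hK : Module.finrank ℚ K = 2) {x : K}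
    (hx : x ^ 2 = ((D : ℤ) : K)) (hcl : NumberField.classNumber K = 1) :
    GoodX (r : ℤ) (k : ℤ) D (Xc E) := by
  have hr' : (2 : ℤ) ≤ r := by exact_mod_cast hr
  have hmc : ((r * k : ℕ) : ℤ) = (r : ℤ) * k := by push_cast; ring
  have hDm : (D : ℤ) = ((r * k : ℕ) : ℤ) ^ 2 + 4 * (r : ℤ) := by rw [hmc]; exact hD
  have hD1' : (1 : ℤ) < D := by
    rw [hD]
    have : 0 ≤ ((r : ℤ) * k) ^ 2 := by positivity
    linarith
  have hD1 : 1 < D := by exact_mod_cast hD1'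
  have hm' : ((r * k : ℕ) : ℤ) % 2 = 0 := by rw [hmc]; exact hm
  have hE1' : (1 : ℤ) < E := by exact_mod_cast hE1
  have hE4' : (E : ℤ) % 4 = 2 ∨ (E : ℤ) % 4 = 3 := by omega
  have hDE' : (D : ℤ) = 4 * (E : ℤ) := by rw [hDE]; push_cast; ring
  have hns := not_sq_four hsf hE1' hDE'
  have hX := chr_Xc hE1 hE4 hDE
  have i1 : IsDomain (QA (r : ℤ) ((r * k : ℕ) : ℤ)) := isDomain_of_ns hDm hns
  have i2 : IsPrincipalIdealRing (QA (r : ℤ) ((r * k : ℕ) : ℤ)) :=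
    pid_even hm' hDm hDE' hE4' hsf hE1' hK hx hcl
  have hcnt := fun n hn => cnt_eq_rx hX.one hX.mul (fun l hl n => cnt_rec_even hDm hDE hm' hl n) n hn
  refine ⟨hD, hD1, ?_, ?_⟩
  · intro q hq hcop f hf
    apply rel_ofX (by omega)
    have h := mainPX (F := fun x => ((f x : ℤ) : ℝ)) hr hk hX hD1 hcnt hcop
      (fun x => by rw [hf]; push_cast; ring)
    rw [h]
    apply SS_congr
    intro x y
    push_cast
    rfl
  · intro l hl hl2 hlm hlr hsq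
    obtain ⟨w0, hw0⟩ := root_of_square hl hl2 hDm hsq
    obtain ⟨z, hz⟩ := exists_norm_prime hl hw0
    have hz0 : z ≠ 0 := by
      rintro rfl
      have := hl.pos
      simp at hz
      omega
    obtain ⟨z', h1, h2⟩ := (fdP hr hk).surj hz0
    obtain ⟨p, rfl⟩ := (genP_range hr hk z').mp h1
    have h3 := congrArg Ideal.absNorm h2
    rw [absNorm_span, absNorm_span, hz] at h3
    have hlm' : 2 * l ≤ r * k := by exact_mod_cast hlm
    have hlr' : l ≠ r := by simpa using hlr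
    exact small_normP hr hk p hl hlm' hlr' h3

theorem good_MX {r k : ℕ} (hr : 2 ≤ r) (hk : 3 ≤ k) (h7 : 7 ≤ r * k) {D : ℕ}
    (hD : (D : ℤ) = ((r : ℤ) * k) ^ 2 - 4 * r) {E : ℕ} (hDE : D = 4 * E)
    (hE4 : E % 4 = 2 ∨ E % 4 = 3) (hE1 : 1 < E) (hsf : Squarefree (E : ℤ))
    (hm : ((r : ℤ) * k) % 2 = 0)
    {K : Type*} [Field K] [NumberField K] (hK : Module.finrank ℚ K = 2) {x : K}
    (hx : x ^ 2 = ((D : ℤ) : K)) (hcl : NumberField.classNumber K = 1) :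
    GoodX (-(r : ℤ)) (-(k : ℤ)) D (Xc E) := by
  have hr' : (2 : ℤ) ≤ r := by exact_mod_cast hr
  have hk' : (3 : ℤ) ≤ k := by exact_mod_cast hk
  have hmc : ((r * k : ℕ) : ℤ) = (r : ℤ) * k := by push_cast; ring
  have hDm : (D : ℤ) = ((r * k : ℕ) : ℤ) ^ 2 + 4 * (-(r : ℤ)) := by rw [hmc, hD]; ring
  have hD1' : (1 : ℤ) < D := by
    rw [hD]
    have : (3 : ℤ) * r ≤ r * k := by nlinarith
    nlinarith
  have hD1 : 1 < D := by exact_mod_cast hD1'
  have hm' : ((r * k : ℕ) : ℤ) % 2 = 0 := by rw [hmc]; exact hm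
  have hE1' : (1 : ℤ) < E := by exact_mod_cast hE1
  have hE4' : (E : ℤ) % 4 = 2 ∨ (E : ℤ) % 4 = 3 := by omega
  have hDE' : (D : ℤ) = 4 * (E : ℤ) := by rw [hDE]; push_cast; ring
  have hns := not_sq_four hsf hE1' hDE'
  have hX := chr_Xc hE1 hE4 hDE
  have i1 : IsDomain (QA (-(r : ℤ)) ((r * k : ℕ) : ℤ)) := isDomain_of_ns hDm hns
  have i2 : IsPrincipalIdealRing (QA (-(r : ℤ)) ((r * k : ℕ) : ℤ)) :=
    pid_even hm' hDm hDE' hE4' hsf hE1' hK hx hcl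
  have hcnt := fun n hn => cnt_eq_rx hX.one hX.mul (fun l hl n => cnt_rec_even hDm hDE hm' hl n) n hn
  refine ⟨by rw [hD]; ring, hD1, ?_, ?_⟩
  · intro q hq hcop f hf
    apply rel_ofX (by omega)
    have h := mainMX (F := fun x => ((f x : ℤ) : ℝ)) hr hk hX hD1 hcnt hcop
      (fun x => by rw [hf]; push_cast; ring)
    rw [h]
    apply SS_congr
    intro x y
    push_cast
    have e1 : x ^ 2 + -(r : ZMod q) * -(k : ZMod q) * (x * y) - -(r : ZMod q) * y ^ 2 =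
      x ^ 2 + (r : ZMod q) * (k : ZMod q) * (x * y) + (r : ZMod q) * y ^ 2 := by ring
    rw [e1]
    ring
  · intro l hl hl2 hlm hlr hsq
    obtain ⟨w0, hw0⟩ := root_of_square hl hl2 hDm hsq
    obtain ⟨z, hz⟩ := exists_norm_prime hl hw0
    have hz0 : z ≠ 0 := by
      rintro rfl
      have := hl.pos
      simp at hz
      omega
    obtain ⟨z', h1, h2⟩ := (fdM hr hk).surj hz0
    obtain ⟨p, rfl⟩ := (genM_range hr hk z').mp h1
    have h3 := congrArg Ideal.absNorm h2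
    rw [absNorm_span, absNorm_span, hz] at h3
    have hlm' : 2 * l ≤ r * k := by
      have : 2 * (l : ℤ) ≤ (r : ℤ) * k := by linarith
      exact_mod_cast this
    have hlr' : l ≠ r := by simpa using hlr
    exact small_normM hr hk p hl hlm' hlr' h7 h3

/-- Relation modulo a prime. -/
theorem GoodX.rel_mod {R K : ℤ} {D : ℕ} {X : ℕ → ℤ} (G : GoodX R K D X) {p : ℕ} (hp : p.Prime) (hp2 : p ≠ 2)
    (hpD : ¬ (p : ℤ) ∣ D) {q : ℕ} [NeZero q] (hcop : q.Coprime D) (χ : ZMod q → ZMod p)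
    (hmul : ∀ x y, χ (x * y) = χ x * χ y) (hodd : ∀ x, χ (-x) = -χ x)
    (hB : ∑ a ∈ range q, (a : ZMod p) * χ a = 0) :
    ∑ x : ZMod q, ∑ y : ZMod q, χ (x ^ 2 + (R : ZMod q) * (K : ZMod q) * (x * y)
      - (R : ZMod q) * y ^ 2) * (wt K (R * K) x y : ZMod p) = 0 := by
  have hF := Fact.mk hp
  have h2 : (2 : ZMod p) ≠ 0 := by
    intro h
    have : ((2 : ℕ) : ZMod p) = 0 := by exact_mod_cast h
    rw [ZMod.natCast_eq_zero_iff] at this
    exact hp2 ((Nat.prime_dvd_prime_iff_eq hp Nat.prime_two).mp this)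
  have hD0 : ((D : ℤ) : ZMod p) ≠ 0 := by
    intro h
    exact hpD ((ZMod.intCast_zmod_eq_zero_iff_dvd _ p).mp h)
  have h := G.rel q hcop (fun x => ((χ x).val : ℤ) - ((χ (-x)).val : ℤ)) (fun x => by
    rw [neg_neg]; ring)
  have hf : ∀ x, ((((χ x).val : ℤ) - ((χ (-x)).val : ℤ) : ℤ) : ZMod p) = 2 * χ x := by
    intro x
    push_cast
    rw [ZMod.natCast_zmod_val, ZMod.natCast_zmod_val, hodd]
    ring
  have h' := congrArg (fun z : ℤ => (z : ZMod p)) h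
  rw [Int.cast_mul, Int.cast_mul, Int.cast_sum, Int.cast_sum] at h'
  have hR : ∑ l ∈ range (q * D), ((∑ a ∈ range q, (l : ℤ) * a * X l *
      (((χ ((a * l : ℕ))).val : ℤ) - ((χ (-((a * l : ℕ) : ZMod q))).val : ℤ)) : ℤ) : ZMod p) = 0 := by
    apply Finset.sum_eq_zero
    intro l _
    rw [Int.cast_sum]
    have e : ∀ a ∈ range q, (((l : ℤ) * a * X l *
      (((χ ((a * l : ℕ))).val : ℤ) - ((χ (-((a * l : ℕ) : ZMod q))).val : ℤ)) : ℤ) : ZMod p) =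
      ((l : ZMod p) * (X l : ZMod p) * 2 * χ l) * ((a : ZMod p) * χ a) := by
      intro a _
      rw [Int.cast_mul, hf, Nat.cast_mul, hmul]
      push_cast
      ring
    rw [Finset.sum_congr rfl e, ← Finset.mul_sum, hB, mul_zero]
  rw [hR, mul_zero] at h'
  rcases mul_eq_zero.mp h' with h3 | h3
  · exact absurd h3 hD0
  · have e : ∀ x ∈ (Finset.univ : Finset (ZMod q)), ((∑ y : ZMod q,
        (((χ (x ^ 2 + (R : ZMod q) * (K : ZMod q) * (x * y) - (R : ZMod q) * y ^ 2)).val : ℤ) -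
        ((χ (-(x ^ 2 + (R : ZMod q) * (K : ZMod q) * (x * y) - (R : ZMod q) * y ^ 2))).val : ℤ)) *
        wt K (R * K) x y : ℤ) : ZMod p) =
        2 * ∑ y : ZMod q, χ (x ^ 2 + (R : ZMod q) * (K : ZMod q) * (x * y)
      - (R : ZMod q) * y ^ 2) * (wt K (R * K) x y : ZMod p) := by
      intro x _
      rw [Int.cast_sum, Finset.mul_sum]
      apply Finset.sum_congr rfl
      intro y _
      rw [Int.cast_mul, hf]
      ring
    rw [Finset.sum_congr rfl e, ← Finset.mul_sum] at h3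
    rcases mul_eq_zero.mp h3 with h4 | h4
    · exact absurd h4 h2
    · exact h4


end Run7.h626.RQ
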