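import Pool.Agent.H419R2.F1
import Pool.Agent.H419R2.F3
import Pool.Agent.Run7.h626.RQ.F

/-! Residue searches for `r = 2`. -/

set_option maxRecDepth 100000

namespace Run7.h626.RQ

open H419R2

/-- steps -/
def stepsP : List Step := [⟨5, 19, [], [], [(2,0),(2,1),(2,4)]⟩,
  ⟨19, 199411, [], [(false, c95_13),(false, c95_109)], [(2,0),(2,5),(2,15),(2,20),(2,45),(2,50),(2,75),(2,80),(2,90),(2,1),(2,26),(2,31),(2,56),(2,61),(2,71),(2,76),(2,81),(2,91),(2,4),(2,14),(2,19),(2,24),(2,34),(2,39),(2,64),(2,69),(2,94)]⟩,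
  ⟨7, 23, [], [(false, c133_13)], [(2,190),(2,285),(2,380),(2,475),(2,5),(2,100),(2,195),(2,575),(2,15),(2,110),(2,205),(2,300),(2,20),(2,400),(2,495),(2,590),(2,330),(2,425),(2,520),(2,615),(2,50),(2,145),(2,240),(2,335),(2,75),(2,170),(2,265),(2,645),(2,365),(2,460),(2,555),(2,650),(2,90),(2,470),(2,565),(2,660),(2,1),(2,96),(2,191),(2,286),(2,26),(2,121),(2,216),(2,596),(2,316),(2,411),(2,506),(2,601),(2,246),(2,341),(2,436),(2,531),(2,61),(2,156),(2,251),(2,631),(2,71),(2,166),(2,261),(2,356),(2,76),(2,456),(2,551),(2,646),(2,176),(2,271),(2,366),(2,461),(2,281),(2,376),(2,471),(2,566),(2,99),(2,194),(2,289),(2,384),(2,204),(2,299),(2,394),(2,489),(2,19),(2,114),(2,209),(2,589),(2,309),(2,404),(2,499),(2,594),(2,34),(2,414),(2,509),(2,604),(2,134),(2,229),(2,324),(2,419),(2,64),(2,159),(2,254),(2,349),(2,69),(2,449),(2,544),(2,639),(2,379),(2,474),(2,569),(2,664)]⟩,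
  ⟨13, 5659, [c95_13,c133_13], [(false, c91_37)], [(2,4940),(2,3705),(2,15),(2,8630),(2,2466),(2,6179)]⟩,
  ⟨37, 96068509339, [c91_37], [], [(2,15),(2,319850)]⟩,
  ⟨109, 473022961816146413042658758988475, [c95_109], [], []⟩]
theorem runP_ok : runS false 2 stepsP 1 [(0, 0)] = true := by decide +kernel

/-- steps -/
def stepsM : List Step := [⟨7, 23, [], [], [(5,0),(5,1),(5,6)]⟩,
  ⟨13, 5659, [], [(false, c91_37)], [(89,0),(89,7),(89,28),(89,42),(89,49),(89,63),(89,84),(89,15),(89,29),(89,36),(89,50),(89,71),(89,78),(89,85),(89,6),(89,13),(89,20),(89,41),(89,55),(89,62),(89,76)]⟩,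
  ⟨37, 96068509339, [c91_37], [], [(3365,0),(3365,687),(3365,3354),(3365,13),(3365,2680)]⟩,
  ⟨19, 199411, [], [(true, c133_13)], [(63971,57226),(63971,63960),(63971,13),(63971,6747)]⟩,
  ⟨23, 340831, [], [(true, c299_7)], []⟩]
theorem runM_ok : runS true 2 stepsM 1 [(0, 0)] = true := by decide +kernel

end Run7.h626.RQ
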