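import Pool.Agent.Run7.h626.RQ.D
import Pool.Agent.Run7.h626.RQ.G

/-! Class number one for the radicands `m² ± 2`. -/

set_option maxRecDepth 100000

namespace Run7.h626.RQ

open H419R2

/-- relations and inertness up to a bound -/
structure SysX (R K : ℤ) (N : ℕ) : Prop where
  inert : ∀ l : ℕ, l.Prime → l ≠ 2 → l ≤ N → ¬ IsSquare (((R * K) ^ 2 + 4 * R : ℤ) : ZMod l)
  rel : ∀ c : CD, c.OK → (∀ l : ℕ, l.Prime → l ∣ c.q → l ≠ 2 ∧ l ≤ N) → c.p ≤ N → c.Rel R K

theorem sysX_of_good {R K : ℤ} {D : ℕ} {X : ℕ → ℤ} (G : GoodX R K D X) (hR : R.natAbs = 2)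
    {N : ℕ} (hN : 2 * (N : ℤ) ≤ R * K) : SysX R K N := by
  have hin : ∀ l : ℕ, l.Prime → l ≠ 2 → l ≤ N → ¬ IsSquare (((D : ℤ)) : ZMod l) := by
    intro l hl h2 hlN
    have h3 : (l : ℤ) ≤ N := by exact_mod_cast hlN
    exact G.inert l hl h2 (by linarith) (by rw [hR]; exact h2)
  have hnd : ∀ l : ℕ, l.Prime → l ≠ 2 → l ≤ N → ¬ (l : ℤ) ∣ D := by
    intro l hl h2 hlN hd
    apply hin l hl h2 hlN
    have : ((D : ℤ) : ZMod l) = 0 := (ZMod.intCast_zmod_eq_zero_iff_dvd _ l).mpr hd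
    rw [this]
    exact ⟨0, by ring⟩
  refine ⟨?_, ?_⟩
  · intro l hl h2 hlN
    have := hin l hl h2 hlN
    rw [G.hD] at this
    exact this
  · intro c hc hq hp _
    apply G.rel_mod hc.pp hc.p2 (hnd _ hc.pp hc.p2 hp) ?_ _ (chi_mul hc.mul)
      (chi_neg hc.q1 hc.mul hc.oth) (chi_sum hc.oth)
    apply Nat.coprime_of_dvd
    intro l hl hlq hlD
    obtain ⟨h2, hlN⟩ := hq l hl hlq
    exact hnd l hl h2 hlN (by exact_mod_cast hlD)

theorem two_primes {a b l N : ℕ} (ha : a.Prime) (hb : b.Prime) (ha2 : a ≠ 2) (hb2 : b ≠ 2)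
    (haN : a ≤ N) (hbN : b ≤ N) (hl : l.Prime) (h : l ∣ a * b) : l ≠ 2 ∧ l ≤ N := by
  rcases (Nat.Prime.dvd_mul hl).mp h with h | h
  · have := (Nat.prime_dvd_prime_iff_eq hl ha).mp h
    subst this
    exact ⟨ha2, haN⟩
  · have := (Nat.prime_dvd_prime_iff_eq hl hb).mp h
    subst this
    exact ⟨hb2, hbN⟩

section

variable {R K : ℤ} {N : ℕ}

theorem X91 (hs : SysX R K N) (hN : 37 ≤ N) : c91_37.OK ∧ c91_37.Rel R K :=
  ⟨c91_37_ok, hs.rel _ c91_37_ok (fun l hl h => two_primes (a := 7) (b := 13) (by norm_num)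
    (by norm_num) (by norm_num) (by norm_num) (by omega) (by omega) hl h) hN⟩

theorem X95a (hs : SysX R K N) (hN : 19 ≤ N) : c95_13.OK ∧ c95_13.Rel R K :=
  ⟨c95_13_ok, hs.rel _ c95_13_ok (fun l hl h => two_primes (a := 5) (b := 19) (by norm_num)
    (by norm_num) (by norm_num) (by norm_num) (by omega) (by omega) hl h)
    (by change 13 ≤ N; omega)⟩

theorem X95b (hs : SysX R K N) (hN : 109 ≤ N) : c95_109.OK ∧ c95_109.Rel R K :=
  ⟨c95_109_ok, hs.rel _ c95_109_ok (fun l hl h => two_primes (a := 5) (b := 19) (by norm_num)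
    (by norm_num) (by norm_num) (by norm_num) (by omega) (by omega) hl h) hN⟩

theorem X133 (hs : SysX R K N) (hN : 19 ≤ N) : c133_13.OK ∧ c133_13.Rel R K :=
  ⟨c133_13_ok, hs.rel _ c133_13_ok (fun l hl h => two_primes (a := 7) (b := 19) (by norm_num)
    (by norm_num) (by norm_num) (by norm_num) (by omega) (by omega) hl h)
    (by change 13 ≤ N; omega)⟩

theorem X299 (hs : SysX R K N) (hN : 23 ≤ N) : c299_7.OK ∧ c299_7.Rel R K :=
  ⟨c299_7_ok, hs.rel _ c299_7_ok (fun l hl h => two_primes (a := 13) (b := 23) (by norm_num)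
    (by norm_num) (by norm_num) (by norm_num) (by omega) (by omega) hl h)
    (by change 7 ≤ N; omega)⟩

end

theorem noP2 {K : ℤ} (hs : SysX 2 K 109) : False := by
  have a1 := X91 hs (by norm_num)
  have a2 := X95a hs (by norm_num)
  have a3 := X95b hs (by norm_num)
  have a4 := X133 hs (by norm_num)
  have H : ∀ st ∈ stepsP, StepHyp 2 K st :=
    List.forall_mem_cons.mpr ⟨⟨List.forall_mem_nil _, List.forall_mem_nil _,
      hs.inert 5 (by norm_num) (by norm_num) (by norm_num)⟩,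
    List.forall_mem_cons.mpr ⟨⟨List.forall_mem_nil _,
      List.forall_mem_cons.mpr ⟨a2, List.forall_mem_cons.mpr ⟨a3, List.forall_mem_nil _⟩⟩,
      hs.inert 19 (by norm_num) (by norm_num) (by norm_num)⟩,
    List.forall_mem_cons.mpr ⟨⟨List.forall_mem_nil _,
      List.forall_mem_cons.mpr ⟨a4, List.forall_mem_nil _⟩,
      hs.inert 7 (by norm_num) (by norm_num) (by norm_num)⟩,
    List.forall_mem_cons.mpr ⟨⟨List.forall_mem_cons.mpr ⟨a2, List.forall_mem_cons.mpr
      ⟨a4, List.forall_mem_nil _⟩⟩, List.forall_mem_cons.mpr ⟨a1, List.forall_mem_nil _⟩,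
      hs.inert 13 (by norm_num) (by norm_num) (by norm_num)⟩,
    List.forall_mem_cons.mpr ⟨⟨List.forall_mem_cons.mpr ⟨a1, List.forall_mem_nil _⟩,
      List.forall_mem_nil _,
      hs.inert 37 (by norm_num) (by norm_num) (by norm_num)⟩,
    List.forall_mem_cons.mpr ⟨⟨List.forall_mem_cons.mpr ⟨a3, List.forall_mem_nil _⟩,
      List.forall_mem_nil _,
      hs.inert 109 (by norm_num) (by norm_num) (by norm_num)⟩,
    List.forall_mem_nil _⟩⟩⟩⟩⟩⟩
  refine runS_sound false 2 stepsP (M := 1) (by decide) runP_ok (R := 2) (K := K) rfl H ?_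
  have e2 : res K 1 = 0 := by
    have := res_lt K (M := 1) (by decide)
    omega
  rw [e2]
  exact List.mem_singleton.mpr rfl

theorem noM2 {K : ℤ} (hs : SysX (-2) K 37) : False := by
  have a1 := X91 hs (by norm_num)
  have a4 := X133 hs (by norm_num)
  have a5 := X299 hs (by norm_num)
  have H : ∀ st ∈ stepsM, StepHyp (-2) K st :=
    List.forall_mem_cons.mpr ⟨⟨List.forall_mem_nil _, List.forall_mem_nil _,
      hs.inert 7 (by norm_num) (by norm_num) (by norm_num)⟩,
    List.forall_mem_cons.mpr ⟨⟨List.forall_mem_nil _,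
      List.forall_mem_cons.mpr ⟨a1, List.forall_mem_nil _⟩,
      hs.inert 13 (by norm_num) (by norm_num) (by norm_num)⟩,
    List.forall_mem_cons.mpr ⟨⟨List.forall_mem_cons.mpr ⟨a1, List.forall_mem_nil _⟩,
      List.forall_mem_nil _,
      hs.inert 37 (by norm_num) (by norm_num) (by norm_num)⟩,
    List.forall_mem_cons.mpr ⟨⟨List.forall_mem_nil _,
      List.forall_mem_cons.mpr ⟨a4, List.forall_mem_nil _⟩,
      hs.inert 19 (by norm_num) (by norm_num) (by norm_num)⟩,
    List.forall_mem_cons.mpr ⟨⟨List.forall_mem_nil _,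
      List.forall_mem_cons.mpr ⟨a5, List.forall_mem_nil _⟩,
      hs.inert 23 (by norm_num) (by norm_num) (by norm_num)⟩,
    List.forall_mem_nil _⟩⟩⟩⟩⟩
  refine runS_sound true 2 stepsM (M := 1) (by decide) runM_ok (R := -2) (K := K) rfl H ?_
  have e2 : res K 1 = 0 := by
    have := res_lt K (M := 1) (by decide)
    omega
  have e1 : res (-2) 1 = 0 := by
    have := res_lt (-2) (M := 1) (by decide)
    omega
  rw [e2, e1]
  exact List.mem_singleton.mpr rfl

/-! ### Small values -/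

/-- a small non-inert odd prime exists -/
def wit2 (N m : ℕ) : Bool :=
  anyL LS2 (fun l => and (Nat.ble l m)
    (not (allR l (fun y => not (Nat.beq (Nat.mod (Nat.mul y y) l) (Nat.mod N l))))))
where
  /-- small primes -/
  LS2 : List ℕ := [3, 5, 7, 11, 13, 17, 19, 23]

theorem wit2_spec {N m : ℕ} (h : wit2 N m = true) :
    ∃ l : ℕ, l.Prime ∧ l ≠ 2 ∧ l ≤ m ∧ IsSquare ((N : ℕ) : ZMod l) := by
  unfold wit2 at h
  rw [anyL_iff] at h
  obtain ⟨l, hl, h1⟩ := h
  rw [Bool.and_eq_true] at h1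
  obtain ⟨h2, h4⟩ := h1
  have hp : l.Prime ∧ l ≠ 2 := by
    simp only [wit2.LS2, List.mem_cons, List.mem_nil_iff, or_false] at hl
    rcases hl with rfl | rfl | rfl | rfl | rfl | rfl | rfl | rfl <;> norm_num
  refine ⟨l, hp.1, hp.2, Nat.le_of_ble_eq_true h2, ?_⟩
  have h5 : ¬ (allR l (fun y => not (Nat.beq (Nat.mod (Nat.mul y y) l) (Nat.mod N l))) = true) := by
    intro h5
    rw [h5] at h4
    exact absurd h4 (by simp)
  rw [allR_iff] at h5
  push Not at h5
  obtain ⟨y, _, hy⟩ := h5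
  have h6 : Nat.beq (Nat.mod (Nat.mul y y) l) (Nat.mod N l) = true := by simpa using hy
  have h7 : y * y % l = N % l := Nat.eq_of_beq_eq_true h6
  refine ⟨(y : ZMod l), ?_⟩
  rw [← Nat.cast_mul, ZMod.natCast_eq_natCast_iff']
  exact h7.symm

/-- exceptional values, plus sign -/
def excP : List ℕ := [0, 1, 2, 3, 6, 9, 15]

/-- exceptional values, minus sign -/
def excM : List ℕ := [0, 1, 2, 3, 4, 5, 7, 8, 13, 20]

theorem smallP2 : allR 109 (fun m => or (anyL excP (fun e => Nat.beq e m))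
    (wit2 (Nat.add (Nat.mul m m) 2) m)) = true := by decide +kernel

theorem smallM2 : allR 109 (fun m => or (anyL excM (fun e => Nat.beq e m))
    (wit2 (Nat.sub (Nat.mul m m) 2) m)) = true := by decide +kernel

theorem list_mem {L : List ℕ} {m : ℕ} (h : anyL L (fun e => Nat.beq e m) = true) : m ∈ L := by
  rw [anyL_iff] at h
  obtain ⟨t, ht, h1⟩ := h
  rw [← Nat.eq_of_beq_eq_true h1]
  exact ht

/-- **Class number one, radicands `m² + 2`.** -/
theorem plus_list {m : ℕ} (hm : 1 ≤ m) (hsf : Squarefree ((m : ℤ) ^ 2 + 2))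
    {K : Type*} [Field K] [NumberField K] (hK : Module.finrank ℚ K = 2) {x : K}
    (hx : x ^ 2 = (((m : ℤ) ^ 2 + 2 : ℤ) : K)) (hcl : NumberField.classNumber K = 1) :
    m ∈ excP := by
  have hE : ((m ^ 2 + 2 : ℕ) : ℤ) = (m : ℤ) ^ 2 + 2 := by push_cast; ring
  have hD : ((4 * (m ^ 2 + 2) : ℕ) : ℤ) = (((2 : ℕ) : ℤ) * m) ^ 2 + 4 * ((2 : ℕ) : ℤ) := by
    push_cast; ring
  have hE4 : (m ^ 2 + 2) % 4 = 2 ∨ (m ^ 2 + 2) % 4 = 3 := by
    rcases Nat.even_or_odd' m with ⟨a, ha | ha⟩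
    · left; rw [ha]; ring_nf; omega
    · right; rw [ha]; ring_nf; omega
  have hx' : (2 * x) ^ 2 = (((4 * (m ^ 2 + 2) : ℕ) : ℤ) : K) := by
    rw [mul_pow, hx]; push_cast; ring
  have G : GoodX ((2 : ℕ) : ℤ) (m : ℤ) (4 * (m ^ 2 + 2)) (Xc ((m ^ 2 + 2 : ℕ) : ℤ)) :=
    good_PX (r := 2) (k := m) le_rfl hm hD rfl hE4 (by nlinarith) (by rw [hE]; exact hsf)
      (by push_cast; omega) hK hx' hcl
  rcases lt_or_ge m 109 with h | h
  · have h1 := smallP2
    rw [allR_iff] at h1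
    have h2 := h1 m h
    rw [Bool.or_eq_true] at h2
    rcases h2 with h2 | h2
    · exact list_mem h2
    · exfalso
      obtain ⟨l, hl, hl2, hlm, hsq⟩ := wit2_spec h2
      refine G.inert l hl hl2 ?_ (by simpa using hl2) ?_
      · have : (l : ℤ) ≤ m := by exact_mod_cast hlm
        push_cast
        linarith
      · obtain ⟨y, hy⟩ := hsq
        refine ⟨2 * y, ?_⟩
        have e : ((Nat.add (Nat.mul m m) 2 : ℕ) : ZMod l) = (m : ZMod l) ^ 2 + 2 := by
          change ((m * m + 2 : ℕ) : ZMod l) = _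
          push_cast; ring
        rw [e] at hy
        push_cast
        linear_combination 4 * hy
  · exfalso
    have hs := sysX_of_good G (by simp) (N := 109) (by push_cast; have : (109 : ℤ) ≤ m := by exact_mod_cast h
                                                       linarith)
    exact noP2 (K := (m : ℤ)) (by exact_mod_cast hs)

/-- **Class number one, radicands `m² - 2`.** -/
theorem minus_list {m : ℕ} (hm : 4 ≤ m) (hsf : Squarefree ((m : ℤ) ^ 2 - 2))
    {K : Type*} [Field K] [NumberField K] (hK : Module.finrank ℚ K = 2) {x : K}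
    (hx : x ^ 2 = (((m : ℤ) ^ 2 - 2 : ℤ) : K)) (hcl : NumberField.classNumber K = 1) :
    m ∈ excM := by
  have hm2 : 16 ≤ m ^ 2 := by nlinarith
  have hE : ((m ^ 2 - 2 : ℕ) : ℤ) = (m : ℤ) ^ 2 - 2 := by
    rw [Nat.cast_sub (by omega)]; push_cast; ring
  have hD : ((4 * (m ^ 2 - 2) : ℕ) : ℤ) = (((2 : ℕ) : ℤ) * m) ^ 2 - 4 * ((2 : ℕ) : ℤ) := by
    rw [Nat.cast_mul, hE]; push_cast; ring
  have hE4 : (m ^ 2 - 2) % 4 = 2 ∨ (m ^ 2 - 2) % 4 = 3 := by
    have h4 : m ^ 2 % 4 = 0 ∨ m ^ 2 % 4 = 1 := by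
      rcases Nat.even_or_odd' m with ⟨a, ha | ha⟩
      · left; rw [ha]; ring_nf; omega
      · right; rw [ha]; ring_nf; omega
    omega
  have hx' : (2 * x) ^ 2 = (((4 * (m ^ 2 - 2) : ℕ) : ℤ) : K) := by
    rw [mul_pow, hx, Nat.cast_mul, hE]; push_cast; ring
  have G : GoodX (-((2 : ℕ) : ℤ)) (-(m : ℤ)) (4 * (m ^ 2 - 2)) (Xc ((m ^ 2 - 2 : ℕ) : ℤ)) :=
    good_MX (r := 2) (k := m) le_rfl (by omega) (by omega) hD rfl hE4 (by omega)
      (by rw [hE]; exact hsf) (by push_cast; omega) hK hx' hcl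
  rcases lt_or_ge m 109 with h | h
  · have h1 := smallM2
    rw [allR_iff] at h1
    have h2 := h1 m h
    rw [Bool.or_eq_true] at h2
    rcases h2 with h2 | h2
    · exact list_mem h2
    · exfalso
      obtain ⟨l, hl, hl2, hlm, hsq⟩ := wit2_spec h2
      refine G.inert l hl hl2 ?_ (by simpa using hl2) ?_
      · have : (l : ℤ) ≤ m := by exact_mod_cast hlm
        push_cast
        linarith
      · obtain ⟨y, hy⟩ := hsq
        refine ⟨2 * y, ?_⟩
        have e : ((Nat.sub (Nat.mul m m) 2 : ℕ) : ZMod l) = (m : ZMod l) ^ 2 - 2 := by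
          change ((m * m - 2 : ℕ) : ZMod l) = _
          rw [Nat.cast_sub (by nlinarith)]
          push_cast; ring
        have e2 : (((4 * (m ^ 2 - 2) : ℕ) : ℤ) : ZMod l) = 4 * ((m : ZMod l) ^ 2 - 2) := by
          rw [Nat.cast_mul, hE]
          push_cast; ring
        rw [e] at hy
        rw [e2]
        linear_combination 4 * hy
  · exfalso
    have hs := sysX_of_good G (by simp) (N := 37) (by push_cast; have : (109 : ℤ) ≤ m := by exact_mod_cast h
                                                      linarith)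
    exact noM2 (K := -(m : ℤ)) (by exact_mod_cast hs)

end Run7.h626.RQ
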