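import Pool.Agent.Run7.h626.RQ.S
import Pool.Agent.N156.PQ.J

/-! Minkowski's bound for `ℚ(√E)`, `E ≡ 2, 3 mod 4`, and small norms. -/

namespace Run7.h626.RQ

open H419R2 NumberField Module Pool.Agent.N156.PQ

section
variable {K : Type*} [Field K] [NumberField K]

theorem exists_equiv_even {m R E D : ℤ} (hm : m % 2 = 0) (hDm : D = m ^ 2 + 4 * R)
    (hDE : D = 4 * E) (hE4 : E % 4 = 2 ∨ E % 4 = 3) (hsf : Squarefree E) (hE1 : 1 < E)
    (hK : finrank ℚ K = 2) {x : K} (hx : x ^ 2 = (D : K)) :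
    Nonempty (𝓞 K ≃ₐ[ℤ] QA R m) := by
  have hns := not_sq_four hsf hE1 hDE
  have hxr : ∀ p q : ℤ, (p : K) + (q : K) * (((m : K) + x) / 2) = 0 → p = 0 ∧ q = 0 := by
    intro p q h
    have h2 : (2 : K) ≠ 0 := by norm_num
    by_cases hq : q = 0
    · subst hq
      simp at h
      exact ⟨h, rfl⟩
    · exfalso
      apply hns
      refine ⟨-(2 * p + q * m) / q, ?_⟩
      have hq' : (q : K) ≠ 0 := by exact_mod_cast hq
      have hxe : x = ((-(2 * p + q * m) / q : ℚ) : K) := by
        push_cast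
        rw [eq_div_iff hq']
        field_simp at h
        linear_combination h
      have h3 : (((-(2 * p + q * m) / q) ^ 2 : ℚ) : K) = ((D : ℚ) : K) := by
        push_cast
        rw [hxe] at hx
        push_cast at hx
        exact hx
      exact_mod_cast h3
  let : Algebra (QA R m) K := (emb hDm hx).toRingHom.toAlgebra
  have hmap : ∀ z : QA R m, algebraMap (QA R m) K z =
      (z.re : K) + (z.im : K) * (((m : K) + x) / 2) := fun z => emb_apply hDm hx z
  have : IsIntegralClosure (QA R m) ℤ K := by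
    refine ⟨?_, ?_⟩
    · intro z w hzw
      rw [hmap, hmap] at hzw
      have := hxr (z.re - w.re) (z.im - w.im) (by push_cast; linear_combination hzw)
      ext
      · linarith [this.1]
      · linarith [this.2]
    · intro y
      constructor
      · intro hy
        obtain ⟨u, w, h⟩ := integral_coords_even hm hE4 hDE hsf hE1 hK hx hy
        exact ⟨⟨u, w⟩, by rw [hmap, h]⟩
      · rintro ⟨z, rfl⟩
        have : IsIntegral ℤ z := by
          refine ⟨Polynomial.X ^ 2 - Polynomial.C (QuadraticAlgebra.trace z) * Polynomial.X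
            + Polynomial.C (QuadraticAlgebra.norm z), ?_, ?_⟩
          · monicity!
          · rw [← Polynomial.aeval_def]
            simp only [map_add, map_sub, map_pow, map_mul, Polynomial.aeval_X, Polynomial.aeval_C]
            have := QuadraticAlgebra.sq_sub_trace_smul_add_norm_eq_zero z
            simpa [Algebra.smul_def] using this
        exact this.map (emb hDm hx)
  have : IsScalarTower ℤ (QA R m) K := IsScalarTower.of_algebraMap_eq (fun n => by simp)
  exact ⟨IsIntegralClosure.equiv ℤ (NumberField.RingOfIntegers K) K (QA R m)⟩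

/-- Criterion for class number one. -/
theorem class_one_crit {E : ℕ} (hE4 : E % 4 = 2 ∨ E % 4 = 3) (hsf : Squarefree E)
    (hE1 : 1 < E) (hK : finrank ℚ K = 2) {x : K} (hx : x ^ 2 = (E : K))
    (H : ∀ p : ℕ, p.Prime → p ^ 2 ≤ E → ∀ w : ℤ, (p : ℤ) ∣ w ^ 2 - E →
      ∃ a b : ℤ, (a ^ 2 - E * b ^ 2).natAbs = p) : NumberField.classNumber K = 1 := by
  have hE1' : (1 : ℤ) < E := by exact_mod_cast hE1
  have hE4' : (E : ℤ) % 4 = 2 ∨ (E : ℤ) % 4 = 3 := by omega
  have hDm : (4 * E : ℤ) = 0 ^ 2 + 4 * (E : ℤ) := by ring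
  have hsf' : Squarefree (E : ℤ) := by rw [Int.squarefree_natCast]; exact hsf
  have hns := not_sq_four hsf' hE1' rfl
  have hxz : (2 * x) ^ 2 = ((4 * E : ℤ) : K) := by rw [mul_pow, hx]; push_cast; ring
  obtain ⟨e⟩ := exists_equiv_even (m := 0) (by norm_num) hDm rfl hE4' hsf' hE1' hK hxz
  have hdisc := discr_eq hDm e
  have htr := totReal hns (by linarith) hK hxz
  have hr2 : InfinitePlace.nrComplexPlaces K = 0 := IsTotallyReal.nrComplexPlaces_eq_zero K
  rw [NumberField.classNumber_eq_one_iff]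
  apply RingOfIntegers.isPrincipalIdealRing_of_isPrincipal_of_norm_le_of_isPrime
  intro I hI hnorm
  rw [hr2, hK, hdisc] at hnorm
  have hN0 : 0 < Ideal.absNorm (I : Ideal (𝓞 K)) := Ideal.absNorm_pos_of_nonZeroDivisors I
  obtain ⟨p, hp, hple, hpP⟩ := exists_prime_mem hI _ hN0 (Ideal.absNorm_mem _)
  have hb : 2 * (p : ℝ) ≤ √(4 * (E : ℝ)) := by
    have h5 : (p : ℝ) ≤ (Ideal.absNorm (I : Ideal (𝓞 K)) : ℝ) := by exact_mod_cast hple
    have h6 : |(((4 * E : ℤ)) : ℝ)| = 4 * (E : ℝ) := by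
      push_cast
      rw [abs_of_nonneg (by positivity)]
    rw [h6] at hnorm
    generalize √(4 * (E : ℝ)) = S at hnorm ⊢
    norm_num [Nat.factorial] at hnorm
    linarith
  have hpD : p ^ 2 ≤ E := by
    have h5 : (2 * (p : ℝ)) ^ 2 ≤ 4 * (E : ℝ) := by
      have := pow_le_pow_left₀ (by positivity) hb 2
      rwa [Real.sq_sqrt (by positivity)] at this
    have h6 : ((p ^ 2 : ℕ) : ℝ) ≤ ((E : ℕ) : ℝ) := by push_cast at h5 ⊢; linarith
    exact_mod_cast h6
  apply principal_of_prime e _ hI hp hpP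
  intro w hw
  obtain ⟨a, b, hab⟩ := H p hp hpD w (by
    have e1 : w ^ 2 + 0 * w - (E : ℤ) = w ^ 2 - E := by ring
    rw [← e1]; exact hw)
  refine ⟨⟨a, b⟩, ?_⟩
  rw [norm_eq]
  simp only
  rw [← hab]
  congr 1
  ring

/-- In a field of class number one, a non-inert prime is a norm up to sign. -/
theorem norm_of_class_one {E : ℕ} (hE4 : E % 4 = 2 ∨ E % 4 = 3) (hsf : Squarefree E)
    (hE1 : 1 < E) (hK : finrank ℚ K = 2) {x : K} (hx : x ^ 2 = (E : K))
    (hcl : NumberField.classNumber K = 1) {p : ℕ} (hp : p.Prime) {w : ℤ}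
    (hw : (p : ℤ) ∣ w ^ 2 - E) : ∃ a b : ℤ, (a ^ 2 - E * b ^ 2).natAbs = p := by
  have hE1' : (1 : ℤ) < E := by exact_mod_cast hE1
  have hE4' : (E : ℤ) % 4 = 2 ∨ (E : ℤ) % 4 = 3 := by omega
  have hDm : (4 * E : ℤ) = 0 ^ 2 + 4 * (E : ℤ) := by ring
  have hsf' : Squarefree (E : ℤ) := by rw [Int.squarefree_natCast]; exact hsf
  have hns := not_sq_four hsf' hE1' rfl
  have hxz : (2 * x) ^ 2 = ((4 * E : ℤ) : K) := by rw [mul_pow, hx]; push_cast; ring
  have i1 : IsDomain (QA (E : ℤ) 0) := isDomain_of_ns hDm hns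
  have i2 : IsPrincipalIdealRing (QA (E : ℤ) 0) :=
    pid_even (by norm_num) hDm rfl hE4' hsf' hE1' hK hxz hcl
  obtain ⟨z, hz⟩ := exists_norm_prime (R := (E : ℤ)) (m := 0) hp (w0 := w) (by
    have e1 : w ^ 2 + 0 * w - (E : ℤ) = w ^ 2 - E := by ring
    rw [e1]; exact hw)
  refine ⟨z.re, z.im, ?_⟩
  rw [← hz, norm_eq]
  congr 1
  ring

end

/-- `x² - (a² + 1) y²` is never `±2` for `a ≥ 2`. -/
theorem no_norm_two {a : ℤ} (ha : 2 ≤ a) :
    ∀ n : ℕ, ∀ x y : ℤ, y.natAbs = n → (x ^ 2 - (a ^ 2 + 1) * y ^ 2).natAbs ≠ 2 := by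
  intro n
  induction n using Nat.strong_induction_on with
  | _ n ih =>
  intro x y hy h
  wlog hx0 : 0 ≤ x generalizing x with H
  · exact H (-x) (by rw [neg_sq]; exact h) (by omega)
  wlog hy0 : 0 ≤ y generalizing y with H
  · exact H (-y) (by rw [Int.natAbs_neg]; exact hy) (by rw [neg_sq]; exact h) (by omega)
  have h2 : x ^ 2 - (a ^ 2 + 1) * y ^ 2 = 2 ∨ x ^ 2 - (a ^ 2 + 1) * y ^ 2 = -2 := by omega
  rcases hy0.eq_or_lt with h0 | h0
  · rw [← h0] at h2
    have h3 : x ^ 2 = 2 ∨ x ^ 2 = -2 := by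
      rcases h2 with h2 | h2
      · left; linarith
      · right; linarith
    rcases h3 with h3 | h3
    · have : x ≤ 1 := by nlinarith
      have : 0 ≤ x := hx0
      interval_cases x <;> omega
    · nlinarith
  · have hy1 : 1 ≤ y := h0
    have hlow : (a - 1) * y < x := by
      by_contra hc
      push Not at hc
      have h4 : x ^ 2 ≤ ((a - 1) * y) ^ 2 := pow_le_pow_left₀ hx0 hc 2
      have h5 : (a ^ 2 + 1) * y ^ 2 - 2 ≤ ((a - 1) * y) ^ 2 := by
        rcases h2 with h2 | h2 <;> linarith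
      nlinarith [mul_pos h0 h0]
    have hupp : x < (a + 1) * y := by
      by_contra hc
      push Not at hc
      have h4 : ((a + 1) * y) ^ 2 ≤ x ^ 2 := pow_le_pow_left₀ (by nlinarith) hc 2
      have h5 : ((a + 1) * y) ^ 2 ≤ (a ^ 2 + 1) * y ^ 2 + 2 := by
        rcases h2 with h2 | h2 <;> linarith
      nlinarith [mul_pos h0 h0]
    have hne : x - a * y ≠ 0 := by
      intro h6
      have h7 : x = a * y := by linarith
      rw [h7] at h2
      have h8 : y ^ 2 = 2 ∨ y ^ 2 = -2 := by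
        rcases h2 with h2 | h2
        · right; linarith
        · left; linarith
      rcases h8 with h8 | h8
      · have : y ≤ 1 := by nlinarith
        have : y = 1 := by omega
        rw [this] at h8
        norm_num at h8
      · nlinarith
    refine ih (x - a * y).natAbs ?_ ((a ^ 2 + 1) * y - a * x) (x - a * y) rfl ?_
    · rw [← hy]
      have e1 : x - a * y < y := by linarith
      have e2 : -y < x - a * y := by linarith
      omega
    · have e3 : ((a ^ 2 + 1) * y - a * x) ^ 2 - (a ^ 2 + 1) * (x - a * y) ^ 2 =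
        -(x ^ 2 - (a ^ 2 + 1) * y ^ 2) := by ring
      rw [e3, Int.natAbs_neg]
      exact h

end Run7.h626.RQ
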