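import Pool.Agent.Run7.h626.RQ.T

/-! The fourteen fields of class number one. -/

namespace Run7.h626.RQ

open NumberField Module

theorem nonres {p E : ℕ} (h : ∀ y : ZMod p, y ^ 2 ≠ (E : ZMod p)) {w : ℤ}
    (hw : (p : ℤ) ∣ w ^ 2 - E) : False := by
  apply h (w : ZMod p)
  have := (ZMod.intCast_zmod_eq_zero_iff_dvd _ p).mpr hw
  push_cast at this
  linear_combination this

section
variable {K : Type*} [Field K] [NumberField K]

theorem cl_2 (hK : finrank ℚ K = 2) {x : K} (hx : x ^ 2 = ((2 : ℕ) : K)) :
    NumberField.classNumber K = 1 := by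
  apply class_one_crit (E := 2) (by norm_num) (by norm_num : Nat.Prime 2).squarefree (by norm_num) hK hx
  intro p hp hpE w hw
  exfalso
  have := hp.two_le
  nlinarith

theorem cl_3 (hK : finrank ℚ K = 2) {x : K} (hx : x ^ 2 = ((3 : ℕ) : K)) :
    NumberField.classNumber K = 1 := by
  apply class_one_crit (E := 3) (by norm_num) (by norm_num : Nat.Prime 3).squarefree (by norm_num) hK hx
  intro p hp hpE w hw
  exfalso
  have := hp.two_le
  nlinarith

theorem cl_6 (hK : finrank ℚ K = 2) {x : K} (hx : x ^ 2 = ((6 : ℕ) : K)) :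
    NumberField.classNumber K = 1 := by
  apply class_one_crit (E := 6) (by norm_num) ((Nat.squarefree_mul (m := 2) (n := 3) (by norm_num)).mpr ⟨Nat.prime_two.squarefree, (by norm_num : Nat.Prime 3).squarefree⟩) (by norm_num) hK hx
  intro p hp hpE w hw
  have h1 : p ≤ 2 := by
    by_contra hc
    push Not at hc
    nlinarith
  have h2 := hp.two_le
  have h3 : p = 2 := by omega
  subst h3
  exact ⟨2, 1, by norm_num⟩

theorem cl_7 (hK : finrank ℚ K = 2) {x : K} (hx : x ^ 2 = ((7 : ℕ) : K)) :
    NumberField.classNumber K = 1 := by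
  apply class_one_crit (E := 7) (by norm_num) (by norm_num : Nat.Prime 7).squarefree (by norm_num) hK hx
  intro p hp hpE w hw
  have h1 : p ≤ 2 := by
    by_contra hc
    push Not at hc
    nlinarith
  have h2 := hp.two_le
  have h3 : p = 2 := by omega
  subst h3
  exact ⟨3, 1, by norm_num⟩

theorem cl_11 (hK : finrank ℚ K = 2) {x : K} (hx : x ^ 2 = ((11 : ℕ) : K)) :
    NumberField.classNumber K = 1 := by
  apply class_one_crit (E := 11) (by norm_num) (by norm_num : Nat.Prime 11).squarefree (by norm_num) hK hx
  intro p hp hpE w hw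
  have h1 : p ≤ 3 := by
    by_contra hc
    push Not at hc
    nlinarith
  have h2 := hp.two_le
  interval_cases p
  · exact ⟨3, 1, by norm_num⟩
  · exact (nonres (p := 3) (E := 11) (by decide) hw).elim

theorem cl_14 (hK : finrank ℚ K = 2) {x : K} (hx : x ^ 2 = ((14 : ℕ) : K)) :
    NumberField.classNumber K = 1 := by
  apply class_one_crit (E := 14) (by norm_num) ((Nat.squarefree_mul (m := 2) (n := 7) (by norm_num)).mpr ⟨Nat.prime_two.squarefree, (by norm_num : Nat.Prime 7).squarefree⟩) (by norm_num) hK hx
  intro p hp hpE w hw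
  have h1 : p ≤ 3 := by
    by_contra hc
    push Not at hc
    nlinarith
  have h2 := hp.two_le
  interval_cases p
  · exact ⟨4, 1, by norm_num⟩
  · exact (nonres (p := 3) (E := 14) (by decide) hw).elim

theorem cl_23 (hK : finrank ℚ K = 2) {x : K} (hx : x ^ 2 = ((23 : ℕ) : K)) :
    NumberField.classNumber K = 1 := by
  apply class_one_crit (E := 23) (by norm_num) (by norm_num : Nat.Prime 23).squarefree (by norm_num) hK hx
  intro p hp hpE w hw
  have h1 : p ≤ 4 := by
    by_contra hc
    push Not at hc
    nlinarith
  have h2 := hp.two_le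
  interval_cases p
  · exact ⟨5, 1, by norm_num⟩
  · exact (nonres (p := 3) (E := 23) (by decide) hw).elim
  · norm_num at hp

theorem cl_38 (hK : finrank ℚ K = 2) {x : K} (hx : x ^ 2 = ((38 : ℕ) : K)) :
    NumberField.classNumber K = 1 := by
  apply class_one_crit (E := 38) (by norm_num) ((Nat.squarefree_mul (m := 2) (n := 19) (by norm_num)).mpr ⟨Nat.prime_two.squarefree, (by norm_num : Nat.Prime 19).squarefree⟩) (by norm_num) hK hx
  intro p hp hpE w hw
  have h1 : p ≤ 6 := by
    by_contra hc
    push Not at hc
    nlinarith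
  have h2 := hp.two_le
  interval_cases p
  · exact ⟨6, 1, by norm_num⟩
  · exact (nonres (p := 3) (E := 38) (by decide) hw).elim
  · norm_num at hp
  · exact (nonres (p := 5) (E := 38) (by decide) hw).elim
  · norm_num at hp

theorem cl_47 (hK : finrank ℚ K = 2) {x : K} (hx : x ^ 2 = ((47 : ℕ) : K)) :
    NumberField.classNumber K = 1 := by
  apply class_one_crit (E := 47) (by norm_num) (by norm_num : Nat.Prime 47).squarefree (by norm_num) hK hx
  intro p hp hpE w hw
  have h1 : p ≤ 6 := by
    by_contra hc
    push Not at hc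
    nlinarith
  have h2 := hp.two_le
  interval_cases p
  · exact ⟨7, 1, by norm_num⟩
  · exact (nonres (p := 3) (E := 47) (by decide) hw).elim
  · norm_num at hp
  · exact (nonres (p := 5) (E := 47) (by decide) hw).elim
  · norm_num at hp

theorem cl_62 (hK : finrank ℚ K = 2) {x : K} (hx : x ^ 2 = ((62 : ℕ) : K)) :
    NumberField.classNumber K = 1 := by
  apply class_one_crit (E := 62) (by norm_num) ((Nat.squarefree_mul (m := 2) (n := 31) (by norm_num)).mpr ⟨Nat.prime_two.squarefree, (by norm_num : Nat.Prime 31).squarefree⟩) (by norm_num) hK hx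
  intro p hp hpE w hw
  have h1 : p ≤ 7 := by
    by_contra hc
    push Not at hc
    nlinarith
  have h2 := hp.two_le
  interval_cases p
  · exact ⟨8, 1, by norm_num⟩
  · exact (nonres (p := 3) (E := 62) (by decide) hw).elim
  · norm_num at hp
  · exact (nonres (p := 5) (E := 62) (by decide) hw).elim
  · norm_num at hp
  · exact (nonres (p := 7) (E := 62) (by decide) hw).elim

theorem cl_83 (hK : finrank ℚ K = 2) {x : K} (hx : x ^ 2 = ((83 : ℕ) : K)) :
    NumberField.classNumber K = 1 := by
  apply class_one_crit (E := 83) (by norm_num) (by norm_num : Nat.Prime 83).squarefree (by norm_num) hK hx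
  intro p hp hpE w hw
  have h1 : p ≤ 9 := by
    by_contra hc
    push Not at hc
    nlinarith
  have h2 := hp.two_le
  interval_cases p
  · exact ⟨9, 1, by norm_num⟩
  · exact (nonres (p := 3) (E := 83) (by decide) hw).elim
  · norm_num at hp
  · exact (nonres (p := 5) (E := 83) (by decide) hw).elim
  · norm_num at hp
  · exact (nonres (p := 7) (E := 83) (by decide) hw).elim
  · norm_num at hp
  · norm_num at hp

theorem cl_167 (hK : finrank ℚ K = 2) {x : K} (hx : x ^ 2 = ((167 : ℕ) : K)) :
    NumberField.classNumber K = 1 := by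
  apply class_one_crit (E := 167) (by norm_num) (by norm_num : Nat.Prime 167).squarefree (by norm_num) hK hx
  intro p hp hpE w hw
  have h1 : p ≤ 12 := by
    by_contra hc
    push Not at hc
    nlinarith
  have h2 := hp.two_le
  interval_cases p
  · exact ⟨13, 1, by norm_num⟩
  · exact (nonres (p := 3) (E := 167) (by decide) hw).elim
  · norm_num at hp
  · exact (nonres (p := 5) (E := 167) (by decide) hw).elim
  · norm_num at hp
  · exact (nonres (p := 7) (E := 167) (by decide) hw).elim
  · norm_num at hp
  · norm_num at hp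
  · norm_num at hp
  · exact (nonres (p := 11) (E := 167) (by decide) hw).elim
  · norm_num at hp

theorem cl_227 (hK : finrank ℚ K = 2) {x : K} (hx : x ^ 2 = ((227 : ℕ) : K)) :
    NumberField.classNumber K = 1 := by
  apply class_one_crit (E := 227) (by norm_num) (by norm_num : Nat.Prime 227).squarefree (by norm_num) hK hx
  intro p hp hpE w hw
  have h1 : p ≤ 15 := by
    by_contra hc
    push Not at hc
    nlinarith
  have h2 := hp.two_le
  interval_cases p
  · exact ⟨15, 1, by norm_num⟩
  · exact (nonres (p := 3) (E := 227) (by decide) hw).elim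
  · norm_num at hp
  · exact (nonres (p := 5) (E := 227) (by decide) hw).elim
  · norm_num at hp
  · exact (nonres (p := 7) (E := 227) (by decide) hw).elim
  · norm_num at hp
  · norm_num at hp
  · norm_num at hp
  · exact (nonres (p := 11) (E := 227) (by decide) hw).elim
  · norm_num at hp
  · exact (nonres (p := 13) (E := 227) (by decide) hw).elim
  · norm_num at hp
  · norm_num at hp

theorem cl_398 (hK : finrank ℚ K = 2) {x : K} (hx : x ^ 2 = ((398 : ℕ) : K)) :
    NumberField.classNumber K = 1 := by
  apply class_one_crit (E := 398) (by norm_num) ((Nat.squarefree_mul (m := 2) (n := 199) (by norm_num)).mpr ⟨Nat.prime_two.squarefree, (by norm_num : Nat.Prime 199).squarefree⟩) (by norm_num) hK hx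
  intro p hp hpE w hw
  have h1 : p ≤ 19 := by
    by_contra hc
    push Not at hc
    nlinarith
  have h2 := hp.two_le
  interval_cases p
  · exact ⟨20, 1, by norm_num⟩
  · exact (nonres (p := 3) (E := 398) (by decide) hw).elim
  · norm_num at hp
  · exact (nonres (p := 5) (E := 398) (by decide) hw).elim
  · norm_num at hp
  · exact (nonres (p := 7) (E := 398) (by decide) hw).elim
  · norm_num at hp
  · norm_num at hp
  · norm_num at hp
  · exact (nonres (p := 11) (E := 398) (by decide) hw).elim
  · norm_num at hp
  · exact (nonres (p := 13) (E := 398) (by decide) hw).elim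
  · norm_num at hp
  · norm_num at hp
  · norm_num at hp
  · exact (nonres (p := 17) (E := 398) (by decide) hw).elim
  · norm_num at hp
  · exact (nonres (p := 19) (E := 398) (by decide) hw).elim

end

end Run7.h626.RQ
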