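import Pool.Agent.Run7.h626.RQ.U

/-! Radicands `n² + r`, `r ∣ 4 n`, which are `2` or `3` modulo `4`. -/

namespace Run7.h626.RQ

open H419R2 NumberField Module

section
variable {K : Type*} [Field K] [NumberField K]

theorem exists_norm_two {R m : ℤ} (hm : m % 2 = 0) [IsDomain (QA R m)]
    [IsPrincipalIdealRing (QA R m)] : ∃ z : QA R m, (QuadraticAlgebra.norm z).natAbs = 2 := by
  apply exists_norm_prime Nat.prime_two (w0 := R)
  obtain ⟨a, ha⟩ : ∃ a, m = 2 * a := ⟨m / 2, by omega⟩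
  obtain ⟨c, hc⟩ : Even (R * (R - 1)) := Int.even_mul_pred_self R
  refine ⟨c + a * R, ?_⟩
  rw [ha]
  push_cast
  linear_combination hc

/-- the plus sign, `r > 2` -/
theorem no_two_P {r k E : ℕ} (hr : 3 ≤ r) (hk : 1 ≤ k) (h4 : 4 ≤ r * k) (hev : r * k % 2 = 0)
    (hE : 4 * (E : ℤ) = ((r : ℤ) * k) ^ 2 + 4 * r) (hE4 : E % 4 = 2 ∨ E % 4 = 3)
    (hsf : Squarefree E) (hE1 : 1 < E) (hK : finrank ℚ K = 2) {x : K}
    (hx : x ^ 2 = (E : K)) : NumberField.classNumber K ≠ 1 := by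
  intro hcl
  have hE1' : (1 : ℤ) < E := by exact_mod_cast hE1
  have hE4' : (E : ℤ) % 4 = 2 ∨ (E : ℤ) % 4 = 3 := by omega
  have hDm : (4 * E : ℤ) = ((r * k : ℕ) : ℤ) ^ 2 + 4 * (r : ℤ) := by rw [hE]; push_cast; ring
  have hsf' : Squarefree (E : ℤ) := by rw [Int.squarefree_natCast]; exact hsf
  have hns := not_sq_four hsf' hE1' rfl
  have hxz : (2 * x) ^ 2 = ((4 * E : ℤ) : K) := by rw [mul_pow, hx]; push_cast; ring
  have hm : ((r * k : ℕ) : ℤ) % 2 = 0 := by exact_mod_cast hev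
  have i1 : IsDomain (QA (r : ℤ) ((r * k : ℕ) : ℤ)) := isDomain_of_ns hDm hns
  have i2 : IsPrincipalIdealRing (QA (r : ℤ) ((r * k : ℕ) : ℤ)) :=
    pid_even hm hDm rfl hE4' hsf' hE1' hK hxz hcl
  obtain ⟨z, hz⟩ := exists_norm_two (R := (r : ℤ)) hm
  have hz0 : z ≠ 0 := by
    rintro rfl
    simp at hz
  obtain ⟨z', h1, h2⟩ := (fdP (by omega) hk).surj hz0
  obtain ⟨p, rfl⟩ := (genP_range (by omega) hk z').mp h1
  have h3 := congrArg Ideal.absNorm h2
  rw [absNorm_span, absNorm_span, hz] at h3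
  exact small_normP (by omega) hk p Nat.prime_two (by omega) (by omega) h3

/-- the minus sign, `r > 2` -/
theorem no_two_M {r k E : ℕ} (hr : 3 ≤ r) (hk : 3 ≤ k) (hev : r * k % 2 = 0)
    (hE : 4 * (E : ℤ) = ((r : ℤ) * k) ^ 2 - 4 * r) (hE4 : E % 4 = 2 ∨ E % 4 = 3)
    (hsf : Squarefree E) (hE1 : 1 < E) (hK : finrank ℚ K = 2) {x : K}
    (hx : x ^ 2 = (E : K)) : NumberField.classNumber K ≠ 1 := by
  intro hcl
  have hE1' : (1 : ℤ) < E := by exact_mod_cast hE1
  have hE4' : (E : ℤ) % 4 = 2 ∨ (E : ℤ) % 4 = 3 := by omega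
  have hDm : (4 * E : ℤ) = ((r * k : ℕ) : ℤ) ^ 2 + 4 * (-(r : ℤ)) := by rw [hE]; push_cast; ring
  have hsf' : Squarefree (E : ℤ) := by rw [Int.squarefree_natCast]; exact hsf
  have hns := not_sq_four hsf' hE1' rfl
  have hxz : (2 * x) ^ 2 = ((4 * E : ℤ) : K) := by rw [mul_pow, hx]; push_cast; ring
  have hm : ((r * k : ℕ) : ℤ) % 2 = 0 := by exact_mod_cast hev
  have h9 : 9 ≤ r * k := by nlinarith
  have i1 : IsDomain (QA (-(r : ℤ)) ((r * k : ℕ) : ℤ)) := isDomain_of_ns hDm hns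
  have i2 : IsPrincipalIdealRing (QA (-(r : ℤ)) ((r * k : ℕ) : ℤ)) :=
    pid_even hm hDm rfl hE4' hsf' hE1' hK hxz hcl
  obtain ⟨z, hz⟩ := exists_norm_two (R := -(r : ℤ)) hm
  have hz0 : z ≠ 0 := by
    rintro rfl
    simp at hz
  obtain ⟨z', h1, h2⟩ := (fdM (by omega) hk).surj hz0
  obtain ⟨p, rfl⟩ := (genM_range (by omega) hk z').mp h1
  have h3 := congrArg Ideal.absNorm h2
  rw [absNorm_span, absNorm_span, hz] at h3
  exact small_normM (by omega) hk p Nat.prime_two (by omega) (by omega) (by omega) h3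

/-- the fourteen radicands -/
def L14 : List ℕ := [2, 3, 6, 7, 11, 14, 23, 38, 47, 62, 83, 167, 227, 398]

theorem pos_case {n r d : ℕ} (hn : 1 ≤ n) (hr : 1 ≤ r) (hrn : r ∣ 2 * n) (hd : d = n ^ 2 + r)
    (hd4 : d % 4 = 2 ∨ d % 4 = 3) (hsf : Squarefree d) (hK : finrank ℚ K = 2) {x : K}
    (hx : x ^ 2 = (d : K)) (hcl : NumberField.classNumber K = 1) : d ∈ L14 := by
  have hd1 : 1 < d := by rw [hd]; nlinarith
  have hr3 : r = 1 ∨ r = 2 ∨ 3 ≤ r := by omega
  rcases hr3 with rfl | rfl | hr3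
  · have hn2 : n = 1 := by
      by_contra hne
      have ha : (2 : ℤ) ≤ n := by omega
      obtain ⟨u, v, huv⟩ := norm_of_class_one hd4 hsf hd1 hK hx hcl
        Nat.prime_two (w := (d : ℤ)) (by
          obtain ⟨c, hc⟩ : Even ((d : ℤ) * (d - 1)) := Int.even_mul_pred_self _
          exact ⟨c, by push_cast; linear_combination hc⟩)
      have e : (d : ℤ) = (n : ℤ) ^ 2 + 1 := by rw [hd]; push_cast; ring
      rw [e] at huv
      exact no_norm_two ha _ u v rfl huv
    subst hn2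
    rw [hd]
    decide
  · have e : (n : ℤ) ^ 2 + 2 = ((n ^ 2 + 2 : ℕ) : ℤ) := by push_cast; ring
    have h := plus_list (m := n) hn (K := K) (x := x)
      (by rw [e, Int.squarefree_natCast, ← hd]; exact hsf) hK
      (by rw [e, ← hd, hx]; simp) hcl
    simp only [excP, List.mem_cons, List.mem_nil_iff, or_false] at h
    rcases h with rfl | rfl | rfl | rfl | rfl | rfl | rfl
    · omega
    all_goals rw [hd]; decide
  · exfalso
    obtain ⟨k, hk⟩ := hrn
    have hk1 : 1 ≤ k := by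
      rcases Nat.eq_zero_or_pos k with h | h
      · rw [h] at hk; omega
      · exact h
    have h2n : r ≤ 2 * n := by rw [hk]; nlinarith
    refine no_two_P hr3 hk1 (by omega) (by omega) ?_ hd4 hsf hd1 hK hx hcl
    have e1 : ((r : ℤ) * k) = 2 * n := by exact_mod_cast hk.symm
    rw [e1, hd]
    push_cast
    ring

theorem sq_sub_one_case {n d : ℕ} (hn : 1 ≤ n) (hd : d + 1 = n ^ 2)
    (hd4 : d % 4 = 2 ∨ d % 4 = 3) (hsf : Squarefree d) (hd1 : 1 < d) (hK : finrank ℚ K = 2) {x : K}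
    (hx : x ^ 2 = (d : K)) (hcl : NumberField.classNumber K = 1) : d ∈ L14 := by
  rcases le_or_gt n 2 with h | h
  · have : n = 1 ∨ n = 2 := by omega
    rcases this with rfl | rfl
    · omega
    · have : d = 3 := by omega
      subst this
      decide
  · exfalso
    obtain ⟨c, rfl⟩ : ∃ c, n = c + 3 := ⟨n - 3, by omega⟩
    refine no_two_P (r := 2 * c + 4) (k := 1) (by omega) le_rfl (by omega) (by omega) ?_ hd4 hsf
      hd1 hK hx hcl
    have e1 : (d : ℤ) + 1 = ((c : ℤ) + 3) ^ 2 := by exact_mod_cast hd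
    have e2 : (d : ℤ) = ((c : ℤ) + 3) ^ 2 - 1 := by linarith
    rw [e2]
    push_cast
    ring

theorem neg_case {n r d : ℕ} (hn : 1 ≤ n) (hr : 1 ≤ r) (hrn : r ∣ 2 * n) (hd : d + r = n ^ 2)
    (hd4 : d % 4 = 2 ∨ d % 4 = 3) (hsf : Squarefree d) (hd1 : 1 < d) (hK : finrank ℚ K = 2) {x : K}
    (hx : x ^ 2 = (d : K)) (hcl : NumberField.classNumber K = 1) : d ∈ L14 := by
  obtain ⟨k, hk⟩ := hrn
  have hdz : (d : ℤ) = (n : ℤ) ^ 2 - r := by
    have : (d : ℤ) + r = (n : ℤ) ^ 2 := by exact_mod_cast hd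
    linarith
  have hk1 : 1 ≤ k := by
    rcases Nat.eq_zero_or_pos k with h | h
    · rw [h] at hk; omega
    · exact h
  have hk3 : k = 1 ∨ k = 2 ∨ 3 ≤ k := by omega
  rcases hk3 with rfl | rfl | hk3
  · -- `r = 2 n`
    have hr2 : r = 2 * n := by omega
    subst hr2
    have hn2 : 2 ≤ n := by nlinarith
    obtain ⟨c, rfl⟩ : ∃ c, n = c + 1 := ⟨n - 1, by omega⟩
    refine sq_sub_one_case (n := c) (by omega) ?_ hd4 hsf hd1 hK hx hcl
    nlinarith
  · -- `r = n`
    have hr2 : r = n := by omega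
    subst hr2
    have hn2 : 2 ≤ r := by nlinarith
    obtain ⟨c, rfl⟩ : ∃ c, r = c + 1 := ⟨r - 1, by omega⟩
    refine pos_case (n := c) (r := c) (by omega) (by omega) ⟨2, by ring⟩ ?_ hd4 hsf hK hx hcl
    nlinarith
  · have hr3 : r = 1 ∨ r = 2 ∨ 3 ≤ r := by omega
    rcases hr3 with rfl | rfl | hr3
    · exact sq_sub_one_case hn hd hd4 hsf hd1 hK hx hcl
    · have hkn : k = n := by omega
      subst hkn
      have hn4 : k = 3 ∨ 4 ≤ k := by omega
      rcases hn4 with rfl | hn4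
      · have : d = 7 := by omega
        subst this
        decide
      · have e : (k : ℤ) ^ 2 - 2 = ((d : ℕ) : ℤ) := by rw [hdz]; push_cast; ring
        have h := minus_list (m := k) hn4 (K := K) (x := x)
          (by rw [e, Int.squarefree_natCast]; exact hsf) hK
          (by rw [e, hx]; simp) hcl
        simp only [excM, List.mem_cons, List.mem_nil_iff, or_false] at h
        rcases h with rfl | rfl | rfl | rfl | rfl | rfl | rfl | rfl | rfl | rfl
        · omega
        · omega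
        · omega
        · omega
        · have : d = 14 := by omega
          subst this; decide
        · have : d = 23 := by omega
          subst this; decide
        · have : d = 47 := by omega
          subst this; decide
        · have : d = 62 := by omega
          subst this; decide
        · have : d = 167 := by omega
          subst this; decide
        · have : d = 398 := by omega
          subst this; decide
    · exfalso
      refine no_two_M hr3 hk3 (by omega) ?_ hd4 hsf hd1 hK hx hcl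
      have e1 : ((r : ℤ) * k) = 2 * n := by exact_mod_cast hk.symm
      rw [e1, hdz]
      ring

theorem dvd_two_mul {r n : ℤ} (h : r ∣ 4 * n) (h4 : r % 4 ≠ 0) : r ∣ 2 * n := by
  rcases Int.emod_two_eq_zero_or_one r with h2 | h2
  · obtain ⟨s, rfl⟩ : ∃ s, r = 2 * s := ⟨r / 2, by omega⟩
    have hs : s % 2 = 1 := by omega
    have h5 : s ∣ 2 * n := by
      obtain ⟨c, hc⟩ := h
      exact ⟨c, by linarith⟩
    have hcop : IsCoprime s 2 := by
      refine ⟨1, -(s / 2), ?_⟩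
      omega
    obtain ⟨c, hc⟩ := hcop.dvd_of_dvd_mul_left h5
    exact ⟨c, by rw [hc]; ring⟩
  · have hcop : IsCoprime r 2 := by
      refine ⟨1, -(r / 2), ?_⟩
      omega
    have h5 : r ∣ 2 * (2 * n) := by
      have : (2 : ℤ) * (2 * n) = 4 * n := by ring
      rw [this]; exact h
    exact hcop.dvd_of_dvd_mul_left h5

/-- **Class number one, extended Richaud-Degert radicands `2, 3` modulo `4`.** -/
theorem erd_even {d n : ℕ} {r : ℤ} (hsf : Squarefree d) (hd1 : 1 < d)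
    (hd4 : d % 4 = 2 ∨ d % 4 = 3) (hn : 1 ≤ n) (hr : r ∣ 4 * (n : ℤ))
    (hd : (d : ℤ) = (n : ℤ) ^ 2 + r) (hK : finrank ℚ K = 2) {x : K}
    (hx : x ^ 2 = (d : K)) (hcl : NumberField.classNumber K = 1) : d ∈ L14 := by
  have hn4 : (n : ℤ) ^ 2 % 4 = 0 ∨ (n : ℤ) ^ 2 % 4 = 1 := by
    rcases Int.even_or_odd' (n : ℤ) with ⟨b, hb | hb⟩
    · left; rw [hb]; ring_nf; omega
    · right; rw [hb]; ring_nf; omega
  have hr4 : r % 4 ≠ 0 := by omega
  have hr2 := dvd_two_mul hr hr4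
  have hr0 : r ≠ 0 := by rintro rfl; simp at hr4
  rcases lt_or_gt_of_ne hr0 with h | h
  · obtain ⟨s, hs⟩ : ∃ s : ℕ, r = -(s : ℤ) := ⟨(-r).toNat, by omega⟩
    subst hs
    refine neg_case (r := s) hn (by omega) ?_ ?_ hd4 hsf hd1 hK hx hcl
    · have := (neg_dvd).mp hr2
      exact_mod_cast this
    · have : (d : ℤ) + s = (n : ℤ) ^ 2 := by linarith
      exact_mod_cast this
  · obtain ⟨s, hs⟩ : ∃ s : ℕ, r = (s : ℤ) := ⟨r.toNat, by omega⟩
    subst hs
    refine pos_case (r := s) hn (by omega) ?_ ?_ hd4 hsf hK hx hcl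
    · exact_mod_cast hr2
    · exact_mod_cast hd

end

end Run7.h626.RQ
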